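import Pool.Agent.Lib.MP_d9f0ae_ag.Loc

/-! Summing the local parameter counts for a semigroup with three generators. -/

namespace Pool.Agent.Lib.MP_d9f0ae_ag.W3
open Finset

section window
variable {S : AddSubmonoid ℤ} (hS : ∀ n ∈ S, 0 ≤ n) {M0 : ℕ} (hM0 : ∀ n : ℤ, M0 ≤ n → n ∈ S)
include hS hM0

theorem sum_V (M N : ℕ) (h : M + M0 ≤ N) :
    ∑ i ∈ range N, chi S (i - M) = M + ∑ i ∈ range M0, chi S i := by
  obtain ⟨r, rfl⟩ : ∃ r, N = M + (M0 + r) := ⟨N - (M + M0), by omega⟩
  rw [sum_range_add, sum_range_add]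
  have e1 : ∑ i ∈ range M, chi S (i - M) = M := by
    rw [sum_congr rfl (g := fun _ => 1) fun i hi => chi_not fun h => by
      have := hS _ h; have := mem_range.1 hi; omega]
    simp
  have e2 : ∑ i ∈ range r, chi S (((M + (M0 + i) : ℕ) : ℤ) - M) = 0 :=
    sum_eq_zero fun i _ => chi_mem (hM0 _ (by push_cast; omega))
  rw [e1, e2, add_zero]
  congr 1
  exact sum_congr rfl fun i _ => by congr 1; push_cast; ring

theorem sum_W (M : ℕ) (h : M0 ≤ M) (d : ℤ) (h0 : 0 ≤ d) (h1 : d ≤ M) :
    ∑ i ∈ range (M + M), chi S (d + (i - M)) = M - d + ∑ i ∈ range M0, chi S i := by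
  lift d to ℕ using h0
  have e := sum_V hS hM0 M (d + (M + M)) (by omega)
  rw [sum_range_add] at e
  have e1 : ∑ i ∈ range d, chi S (i - M) = d := by
    rw [sum_congr rfl (g := fun _ => 1) fun i hi => chi_not fun h => by
      have := hS _ h; have := mem_range.1 hi; omega]
    simp
  have e2 : ∑ i ∈ range (M + M), chi S (((d + i : ℕ) : ℤ) - M)
      = ∑ i ∈ range (M + M), chi S (d + (i - M)) :=
    sum_congr rfl fun i _ => by congr 1; push_cast; ring
  rw [e1, e2] at e
  linarith

end window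

theorem sum_split (f : ℤ → ℤ) (M : ℕ) :
    ∑ i ∈ range (M + M), f (i - M) = ∑ w ∈ Icc 1 M, f (-(w : ℤ)) + ∑ l ∈ range M, f l := by
  rw [sum_range_add]
  congr 1
  · refine sum_nbij' (fun i => M - i) (fun w => M - w) ?_ ?_ ?_ ?_ ?_
    · intro i hi; simp only [mem_range, mem_Icc] at *
      omega
    · intro i hi; simp only [mem_range, mem_Icc] at *
      omega
    · intro i hi; simp only [mem_range] at *; omega
    · intro i hi; simp only [mem_Icc] at *; omega
    · intro i hi
      have := mem_range.1 hi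
      congr 1
      rw [Nat.cast_sub this.le]; ring
  · exact sum_congr rfl fun i _ => by congr 1; push_cast; ring

theorem sum_tail (f : ℕ → ℤ) {M0 M : ℕ} (h : M0 ≤ M) (hf : ∀ l, M0 ≤ l → f l = 0) :
    ∑ l ∈ range M, f l = ∑ l ∈ range M0, f l := by
  obtain ⟨r, rfl⟩ : ∃ r, M = M0 + r := ⟨M - M0, by omega⟩
  rw [sum_range_add, sum_eq_zero (s := range r) fun i _ => hf _ (by omega), add_zero]

theorem sum_nonneg_of (R G B : Finset ℕ) (ψ : ℕ → ℤ) (hG : G ⊆ R) (h1 : ∀ l ∈ G, 1 ≤ ψ l)
    (h2 : ∀ l, -1 ≤ ψ l) (h3 : ∀ l, l ∉ B → 0 ≤ ψ l) (hc : B.card ≤ G.card) :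
    0 ≤ ∑ l ∈ R, ψ l := by
  have e : ∑ l ∈ R, ((if l ∈ G then 1 else 0) - (if l ∈ B then 1 else 0) : ℤ) ≤ ∑ l ∈ R, ψ l := by
    refine sum_le_sum fun l _ => ?_
    have := h2 l
    split_ifs with p q q
    · have := h1 l p; omega
    · have := h1 l p; omega
    · omega
    · have := h3 l q; omega
  rw [sum_sub_distrib, sum_boole, sum_boole] at e
  have e1 : (R.filter (· ∈ G)) = G := by
    ext l; simp only [mem_filter]; exact ⟨fun h => h.2, fun h => ⟨hG h, h⟩⟩
  have e2 : (R.filter (· ∈ B)).card ≤ B.card := card_le_card fun l h => (mem_filter.1 h).2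
  rw [e1] at e
  omega

namespace Lsh
variable {a b c : ℤ} (L : Lsh a b c)

/-- The sums with exponents below `al`, `be`, `ga`. -/
noncomputable def Box : Finset ℤ :=
  (range L.al.toNat ×ˢ range L.be.toNat ×ˢ range L.ga.toNat).image
    fun p => p.1 * a + p.2.1 * b + p.2.2 * c

theorem mem_Box {s : ℤ} : s ∈ L.Box ↔ ∃ i j k : ℤ, 0 ≤ i ∧ i < L.al ∧ 0 ≤ j ∧ j < L.be ∧
    0 ≤ k ∧ k < L.ga ∧ s = i * a + j * b + k * c := by
  simp only [Box, mem_image, mem_product, mem_range, Prod.exists]
  constructor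
  · rintro ⟨i, j, k, ⟨hi, hj, hk⟩, rfl⟩
    exact ⟨i, j, k, by omega, by omega, by omega, by omega, by omega, by omega, rfl⟩
  · rintro ⟨i, j, k, hi, hi', hj, hj', hk, hk', rfl⟩
    lift i to ℕ using hi
    lift j to ℕ using hj
    lift k to ℕ using hk
    exact ⟨i, j, k, ⟨by omega, by omega, by omega⟩, rfl⟩

/-- Degree of the first syzygy. -/
def e1 : ℤ := L.ga * c + (L.be + L.be') * b
/-- First corner of the L-shape, minus `a`. -/
def F1 : ℤ := (L.be + L.be' - 1) * b + (L.ga - 1) * c - a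
/-- Second corner of the L-shape, minus `a`. -/
def F2 : ℤ := (L.be' - 1) * b + (L.ga + L.ga' - 1) * c - a

theorem F1_not : L.F1 ∉ S3 a b c := by
  have := L.hbe; have := L.hbe'; have := L.hga; have := L.hga'
  exact L.apery ⟨by omega, by omega, by omega, by omega, by omega⟩

theorem F2_not : L.F2 ∉ S3 a b c := by
  have := L.hbe; have := L.hbe'; have := L.hga; have := L.hga'
  exact L.apery ⟨by omega, by omega, by omega, by omega, by omega⟩

theorem rho_ge (l : ℤ) :
    chi (S3 a b c) (L.d1 + l) + chi (S3 a b c) (L.d2 + l) + chi (S3 a b c) (L.d3 + l)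
      - chi (S3 a b c) (L.e1 + l) - (if L.e1 + l ∈ L.Box then 1 else 0) ≤ L.rho l := by
  have := chi_01 (S3 a b c) (L.e1 + l)
  unfold rho
  rcases chi_cases (S3 a b c) (L.d1 + l) with ⟨p1, c1⟩ | ⟨p1, c1⟩
  · have := chi_01 (S3 a b c) (L.d2 + l); have := chi_01 (S3 a b c) (L.d3 + l)
    split_ifs <;> omega
  rcases chi_cases (S3 a b c) (L.d2 + l) with ⟨p2, c2⟩ | ⟨p2, c2⟩
  · have := chi_01 (S3 a b c) (L.d3 + l)
    split_ifs <;> omega
  rcases chi_cases (S3 a b c) (L.d3 + l) with ⟨p3, c3⟩ | ⟨p3, c3⟩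
  · split_ifs <;> omega
  rcases chi_cases (S3 a b c) (L.e1 + l) with ⟨p4, c4⟩ | ⟨p4, c4⟩
  · obtain ⟨i, j, k, hi, hj, hk, e'⟩ := S3_elim p4
    have e := e'
    unfold e1 at e
    have hi' : i < L.al := by
      by_contra h
      exact p3 (mem_S3' (i - L.al) j k (by omega) hj hk (by
        unfold d3; linear_combination e - L.r2))
    have hj' : j < L.be := by
      by_contra h
      exact p1 (mem_S3' i (j - L.be) k hi (by omega) hk (by
        unfold d1; linear_combination e + L.r1))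
    have hk' : k < L.ga := by
      by_contra h
      exact p2 (mem_S3' i j (k - L.ga) hi hj (by omega) (by unfold d2; linear_combination e))
    rw [if_pos (L.mem_Box.2 ⟨i, j, k, hi, hi', hj, hj', hk, hk', e'⟩)]
    omega
  · split_ifs <;> omega

theorem genus_ge {M0 : ℕ} (hM0 : ∀ n : ℤ, M0 ≤ n → n ∈ S3 a b c) :
    L.F2 + 1 + L.Box.card ≤ 2 * ∑ i ∈ range M0, chi (S3 a b c) i := by
  have hS := S3_nonneg L.ha L.hb L.hc
  have ha := L.ha; have hb := L.hb; have hc := L.hc
  have := L.hal; have := L.hal'; have := L.hbe; have := L.hbe'; have := L.hga; have := L.hga'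
  obtain ⟨M, hM⟩ : ∃ M : ℕ, M0 + |L.F1| + |L.F2| + (L.al * a + L.be * b + L.ga * c) ≤ M :=
    ⟨_, Int.self_le_toNat _⟩
  have t0 : 0 ≤ L.al * a + L.be * b + L.ga * c := by positivity
  have t1 := le_abs_self L.F1; have t2 := neg_abs_le L.F1
  have t3 := le_abs_self L.F2; have t4 := neg_abs_le L.F2
  obtain ⟨N, hN⟩ : ∃ N : ℕ, (N : ℤ) = 2 * M + L.F2 + 1 :=
    ⟨(2 * M + L.F2 + 1).toNat, by omega⟩
  have v1 := sum_V hS hM0 M N (by omega)
  have v2 : ∑ i ∈ range N, chi (S3 a b c) (L.F2 - (i - M))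
      = ∑ i ∈ range N, chi (S3 a b c) (i - M) := by
    rw [← sum_range_reflect]
    refine sum_congr rfl fun i hi => ?_
    have := mem_range.1 hi
    congr 1
    omega
  have v3 : ∑ i ∈ range N, ((if L.F1 - (i - M) ∈ L.Box then 1 else 0) + 1 : ℤ) ≤
      ∑ i ∈ range N, (chi (S3 a b c) (i - M) + chi (S3 a b c) (L.F2 - (i - M))) := by
    refine sum_le_sum fun n _ => ?_
    split_ifs with h
    · obtain ⟨i, j, k, hi, hi', hj, hj', hk, hk', e⟩ := L.mem_Box.1 h
      rw [chi_not (not_mem_of_add i j k hi hj hk L.F1_not (by linear_combination e)), chi_not]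
      have := L.apery' (j := L.be' + j) (k := k) (i := L.al - i)
        ⟨by omega, hk, by omega, by omega, by omega⟩ (by omega)
      convert this using 2
      unfold F1 at e
      unfold F2
      linear_combination e - L.r2
    · rcases chi_cases (S3 a b c) (n - M) with h1 | h1
      · rw [h1.2, chi_not fun h2 => L.F2_not (by simpa using add_mem h1.1 h2)]
      · have := chi_01 (S3 a b c) (L.F2 - (n - M)); omega
  have v4 : L.Box.card ≤ ((range N).filter fun i : ℕ => L.F1 - (i - M) ∈ L.Box).card := by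
    have hb' : ∀ s ∈ L.Box, 0 ≤ s ∧ s ≤ L.al * a + L.be * b + L.ga * c := by
      intro s hs
      obtain ⟨i, j, k, hi, hi', hj, hj', hk, hk', rfl⟩ := L.mem_Box.1 hs
      exact ⟨by positivity, by nlinarith⟩
    refine card_le_card_of_injOn (fun s => (L.F1 - s + M).toNat) (fun s hs => ?_) ?_
    · have := hb' s hs
      simp only [coe_filter, mem_range, Set.mem_ofPred_eq]
      refine ⟨by omega, ?_⟩
      convert (mem_coe.1 hs) using 1
      omega
    · intro s hs t ht e
      have := hb' s hs; have := hb' t ht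
      simp only at e
      omega
  rw [sum_add_distrib, sum_add_distrib, sum_boole, v2, v1] at v3
  simp only [sum_const, card_range, nsmul_eq_mul, mul_one] at v3
  omega

theorem pf {l : ℤ} (hl : l ∉ S3 a b c) (h : nA a b c l = 0) : l = L.F1 ∨ l = L.F2 := by
  unfold nA at h
  have := chi_01 (S3 a b c) (a + l)
  have := chi_01 (S3 a b c) (b + l)
  have := chi_01 (S3 a b c) (c + l)
  have pa : a + l ∈ S3 a b c := mem_of_chi (by omega)
  have pb : b + l ∈ S3 a b c := mem_of_chi (by omega)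
  have pc : c + l ∈ S3 a b c := mem_of_chi (by omega)
  obtain ⟨i, j, k, hi, hin, e⟩ := L.normal pa
  have hi0 : i = 0 := by
    by_contra h0
    exact hl (mem_S3' (i - 1) j k (by omega) hin.1 hin.2.1 (by linear_combination e))
  rw [hi0] at e
  have n1 : ¬ L.In (j + 1) k := fun h' => L.apery h' (by convert pb using 1; linear_combination -e)
  have n2 : ¬ L.In j (k + 1) := fun h' => L.apery h' (by convert pc using 1; linear_combination -e)
  unfold In at hin n1 n2
  have : (j = L.be + L.be' - 1 ∧ k = L.ga - 1) ∨ (j = L.be' - 1 ∧ k = L.ga + L.ga' - 1) := by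
    have := L.hbe; have := L.hga'
    omega
  rcases this with ⟨rfl, rfl⟩ | ⟨rfl, rfl⟩
  · left; unfold F1; linear_combination e
  · right; unfold F2; linear_combination e

theorem pf_unique {x y : ℤ} (hx : x ∉ S3 a b c) (hy : nA a b c y = 0) (h : x - y ∈ S3 a b c) :
    y = x := by
  unfold nA at hy
  have := chi_01 (S3 a b c) (a + y)
  have := chi_01 (S3 a b c) (b + y)
  have := chi_01 (S3 a b c) (c + y)
  have pa : a + y ∈ S3 a b c := mem_of_chi (by omega)
  have pb : b + y ∈ S3 a b c := mem_of_chi (by omega)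
  have pc : c + y ∈ S3 a b c := mem_of_chi (by omega)
  obtain ⟨i, j, k, hi, hj, hk, e⟩ := S3_elim h
  have : i = 0 := by
    by_contra h0
    exact not_mem_of_add (i - 1) j k (by omega) hj hk hx (by linear_combination e) pa
  have : j = 0 := by
    by_contra h0
    exact not_mem_of_add i (j - 1) k hi (by omega) hk hx (by linear_combination e) pb
  have : k = 0 := by
    by_contra h0
    exact not_mem_of_add i j (k - 1) hi hj (by omega) hx (by linear_combination e) pc
  subst_vars
  linear_combination -e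

/-- The local excess. -/
noncomputable def psi (l : ℤ) : ℤ := nA a b c l - L.rho l - chi (S3 a b c) l

theorem psi_ge (l : ℤ) : 0 ≤ L.psi l ∨ (L.psi l = -1 ∧ l ∉ S3 a b c ∧ nA a b c l = 0) := by
  unfold psi
  have := L.phi_ge l
  rcases chi_cases (S3 a b c) l with h | h
  · left; omega
  · rcases this with h' | h'
    · right; exact ⟨by omega, h.1, h'.1⟩
    · left; omega

theorem good {F : ℤ} (hF : F ∉ S3 a b c) (hF' : ∀ n, F < n → n ∈ S3 a b c) :
    ((a + b < L.d1 ∧ a + b < L.d2 ∧ a + b ≤ L.d3) → 1 ≤ L.psi (F - (a + b))) ∧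
    ((a + c < L.d1 ∧ a + c ≤ L.d2 ∧ a + c < L.d3) → 1 ≤ L.psi (F - (a + c))) ∧
    ((b + c ≤ L.d1 ∧ b + c < L.d2 ∧ b + c < L.d3) → 1 ≤ L.psi (F - (b + c))) := by
  have := L.hal; have := L.hal'; have := L.hbe; have := L.hbe'; have := L.hga; have := L.hga'
  unfold psi nA rho
  refine ⟨fun ⟨h1, h2, h3⟩ => ?_, fun ⟨h1, h2, h3⟩ => ?_, fun ⟨h1, h2, h3⟩ => ?_⟩
  · have := chi_01 (S3 a b c) (F - (a + b))
    have := chi_01 (S3 a b c) (c + (F - (a + b)))
    have := chi_not (not_mem_of_add (x := a + (F - (a + b))) 0 1 0 le_rfl zero_le_one le_rfl hF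
      (by ring))
    have := chi_not (not_mem_of_add (x := b + (F - (a + b))) 1 0 0 zero_le_one le_rfl le_rfl hF
      (by ring))
    have := chi_mem (hF' (L.d1 + (F - (a + b))) (by omega))
    have := chi_mem (hF' (L.d2 + (F - (a + b))) (by omega))
    rcases h3.lt_or_eq with h3 | h3
    · have := chi_mem (hF' (L.d3 + (F - (a + b))) (by omega))
      omega
    · have := chi_le fun h => (@q3 _ _ _ L (F - (a + b)) h).1
      have := chi_01 (S3 a b c) (L.d3 + (F - (a + b)))
      omega
  · have := chi_01 (S3 a b c) (F - (a + c))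
    have := chi_01 (S3 a b c) (b + (F - (a + c)))
    have := chi_not (not_mem_of_add (x := a + (F - (a + c))) 0 0 1 le_rfl le_rfl zero_le_one hF
      (by ring))
    have := chi_not (not_mem_of_add (x := c + (F - (a + c))) 1 0 0 zero_le_one le_rfl le_rfl hF
      (by ring))
    have := chi_mem (hF' (L.d1 + (F - (a + c))) (by omega))
    have := chi_mem (hF' (L.d3 + (F - (a + c))) (by omega))
    have := chi_le fun h => (@q2 _ _ _ L (F - (a + c)) h).2.1
    have := chi_01 (S3 a b c) (L.d2 + (F - (a + c)))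
    omega
  · have := chi_01 (S3 a b c) (F - (b + c))
    have := chi_01 (S3 a b c) (a + (F - (b + c)))
    have := chi_not (not_mem_of_add (x := b + (F - (b + c))) 0 0 1 le_rfl le_rfl zero_le_one hF
      (by ring))
    have := chi_not (not_mem_of_add (x := c + (F - (b + c))) 0 1 0 le_rfl zero_le_one le_rfl hF
      (by ring))
    have := chi_mem (hF' (L.d2 + (F - (b + c))) (by omega))
    have := chi_mem (hF' (L.d3 + (F - (b + c))) (by omega))
    have := chi_le fun h => (@q1 _ _ _ L (F - (b + c)) h).1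
    have := chi_01 (S3 a b c) (L.d1 + (F - (b + c)))
    omega

end Lsh
end Pool.Agent.Lib.MP_d9f0ae_ag.W3
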