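import Mathlib

/-! Symmetric 2-cocycles on a submonoid of the nonnegative integers with two consecutive
elements are coboundaries. -/

namespace Pool.Agent.Lib.MP_d9f0ae_ag.W3

variable {G : Type*} [AddCommGroup G] (S : AddSubmonoid ℤ)

/-- Carrier of the monoid extension attached to a cocycle. -/
@[ext] structure Ext (c : S → S → G) where
  s : S
  x : G

theorem cocycle_split' (hS : ∀ n ∈ S, 0 ≤ n) (c : S → S → G) (hs : ∀ s t, c s t = c t s)
    (hc : ∀ s t u, c s t + c (s + t) u = c t u + c s (t + u)) (N : ℤ) (h0 : N ∈ S)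
    (h1 : N + 1 ∈ S) :
    ∃ m : S → G, ∀ s t, c s t = m s + m t - m (s + t) := by
  have hz : ∀ u, c 0 u = c 0 0 := fun u => by
    have := hc 0 0 u
    simp only [zero_add] at this
    exact (add_right_cancel this).symm
  let _ : Add (Ext S c) := ⟨fun p q => ⟨p.s + q.s, p.x + q.x + c p.s q.s⟩⟩
  let _ : Zero (Ext S c) := ⟨⟨0, - c 0 0⟩⟩
  have hadd : ∀ p q : Ext S c, p + q = ⟨p.s + q.s, p.x + q.x + c p.s q.s⟩ := fun _ _ => rfl
  have hzero : (0 : Ext S c) = ⟨0, - c 0 0⟩ := rfl
  let _ : AddCommMonoid (Ext S c) :=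
    { add_assoc := fun p q r => by
        simp only [hadd]
        refine Ext.ext (add_assoc _ _ _) ?_
        have := hc p.s q.s r.s
        simp only
        linear_combination (norm := abel) this
      zero_add := fun p => by
        simp only [hadd, hzero]
        refine Ext.ext (zero_add _) ?_
        simp only [hz]; abel
      add_zero := fun p => by
        simp only [hadd, hzero]
        refine Ext.ext (add_zero _) ?_
        simp only [hs p.s 0, hz]; abel
      add_comm := fun p q => by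
        simp only [hadd]
        refine Ext.ext (add_comm _ _) ?_
        simp only [hs p.s q.s]; abel
      nsmul := nsmulRec }
  set p : Ext S c := ⟨⟨N, h0⟩, 0⟩
  set q : Ext S c := ⟨⟨N + 1, h1⟩, 0⟩
  have hns : ∀ (n : ℕ) (r : Ext S c), ((n • r).s : ℤ) = n * (r.s : ℤ) := by
    intro n r
    induction n with
    | zero => simp [hzero]
    | succ n ih => rw [succ_nsmul, hadd]; simp [ih]; ring
  let e : S → Ext S c := fun s => ⟨s, 0⟩
  let a : S → ℕ := fun s => (s : ℤ).toNat
  have ha : ∀ s : S, ((a s : ℕ) : ℤ) = s := fun s => Int.toNat_of_nonneg (hS _ s.2)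
  have haa : ∀ s t : S, a (s + t) = a s + a t := fun s t => by
    have h1 := ha s; have h2 := ha t; have h3 := ha (s + t)
    rw [AddSubmonoid.coe_add] at h3
    omega
  have hcomp : ∀ s : S, (e s + a s • p).s = (a s • q).s := by
    intro s
    apply Subtype.ext
    rw [hadd, hns]
    simp [hns, e, p, q, ha]; ring
  refine ⟨fun s => (e s + a s • p).x - (a s • q).x, fun s t => ?_⟩
  have h2 : e s + e t + a (s + t) • p = (e s + a s • p) + (e t + a t • p) := by
    rw [haa, add_nsmul]; abel
  have h3 : a (s + t) • q = a s • q + a t • q := by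
    rw [haa, add_nsmul]
  have h4 := congrArg Ext.x h2
  have h5 := congrArg Ext.x h3
  rw [hadd (e s + a s • p), hcomp, hcomp] at h4
  rw [hadd] at h5
  have h6 : (e s + e t + a (s + t) • p).x = (e (s + t) + a (s + t) • p).x + c s t := by
    rw [hadd (e s + e t), hadd (e s), hadd (e (s + t))]
    simp only [e]; abel
  simp only at h4 h5 ⊢
  rw [h6] at h4
  linear_combination (norm := abel) h4 - h5

theorem cocycle_split (hS : ∀ n ∈ S, 0 ≤ n) (c : ℤ → ℤ → G)
    (hs : ∀ s ∈ S, ∀ t ∈ S, c s t = c t s)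
    (hc : ∀ s ∈ S, ∀ t ∈ S, ∀ u ∈ S, c s t + c (s + t) u = c t u + c (t + u) s) (N : ℤ)
    (h0 : N ∈ S) (h1 : N + 1 ∈ S) :
    ∃ m : ℤ → G, ∀ s ∈ S, ∀ t ∈ S, c s t = m s + m t - m (s + t) := by
  classical
  obtain ⟨m, hm⟩ := cocycle_split' S hS (fun s t => c s t) (fun s t => hs _ s.2 _ t.2)
    (fun s t u => by
      have := hc _ s.2 _ t.2 _ u.2
      rw [hs _ (S.add_mem t.2 u.2) _ s.2] at this
      simpa using this) N h0 h1
  refine ⟨fun n => if h : n ∈ S then m ⟨n, h⟩ else 0, fun s hs' t ht => ?_⟩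
  have := hm ⟨s, hs'⟩ ⟨t, ht⟩
  simp only [dif_pos hs', dif_pos ht, dif_pos (S.add_mem hs' ht)]
  exact this

end Pool.Agent.Lib.MP_d9f0ae_ag.W3
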