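import Mathlib

/-! Weierstrass semigroups, genus and effective weight. -/

namespace Pool.Agent.Lib.MP_d9f0ae_ag.W3

/-- `a` is a generator of `S`: a positive element that is not a sum of two positive elements. -/
def IsGen (S : Set ℕ) (a : ℕ) : Prop :=
  a ∈ S ∧ 0 < a ∧ ¬ ∃ x ∈ S, ∃ y ∈ S, 0 < x ∧ 0 < y ∧ a = x + y

/-- The number of gaps. -/
noncomputable def genus (S : Set ℕ) : ℕ := Sᶜ.ncard

/-- The effective weight: pairs (generator, larger gap). -/
noncomputable def ew (S : Set ℕ) : ℕ := {p : ℕ × ℕ | IsGen S p.1 ∧ p.2 ∉ S ∧ p.1 < p.2}.ncard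

/-- The functions regular at every place of `F / K` other than the place of `v`. -/
def regular (K : Type*) {F : Type*} [Field K] [Field F] [Algebra K F]
    (v : Valuation F (WithZero (Multiplicative ℤ))) : Subalgebra K F where
  carrier := {f | ∀ O : ValuationSubring F, (∀ x : K, algebraMap K F x ∈ O) →
    O ≠ v.valuationSubring → f ∈ O}
  mul_mem' := fun hf hg O h1 h2 => mul_mem (hf O h1 h2) (hg O h1 h2)
  add_mem' := fun hf hg O h1 h2 => add_mem (hf O h1 h2) (hg O h1 h2)
  algebraMap_mem' := fun x _ h1 _ => h1 x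

/-- The pole orders at the place of `v` of the functions regular elsewhere. -/
def weierstrass (K : Type*) {F : Type*} [Field K] [Field F] [Algebra K F]
    (v : Valuation F (WithZero (Multiplicative ℤ))) : Set ℕ :=
  {n | ∃ f ∈ regular K v, v f = WithZero.exp (n : ℤ)}

end Pool.Agent.Lib.MP_d9f0ae_ag.W3
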