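import Pool.Agent.Lib.MP_d9f0ae_ag.Coc

/-! Filtered algebras with one dimensional jumps: structure constants level by level. -/

namespace Pool.Agent.Lib.MP_d9f0ae_ag.W3
open Finset

/-- An algebra filtered by pole order, with jumps only in `S`, each of dimension at most one. -/
structure Fil (K A : Type*) [Field K] [CommRing A] [Algebra K A] (S : AddSubmonoid ℤ) where
  F : ℤ → Submodule K A
  mono : Monotone F
  bot : ∀ n < 0, ∀ f ∈ F n, f = 0
  mul : ∀ {m n : ℤ} {f g : A}, f ∈ F m → g ∈ F n → f * g ∈ F (m + n)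
  exh : ∀ f, ∃ n, f ∈ F n
  gap : ∀ n, n ∉ S → ∀ f ∈ F n, f ∈ F (n - 1)
  one : ∀ n, ∀ f ∈ F n, ∀ g ∈ F n, g ∉ F (n - 1) → ∃ x : K, f - x • g ∈ F (n - 1)

variable {K A : Type*} [Field K] [CommRing A] [Algebra K A] {S : AddSubmonoid ℤ}

namespace Fil
variable (Φ : Fil K A S)

theorem le {m n : ℤ} {f : A} (hf : f ∈ Φ.F m) (h : m ≤ n) : f ∈ Φ.F n := Φ.mono h hf

/-- A family with one element of exact degree `n` for each `n` in `S`. -/
def IsB (b : ℤ → A) : Prop :=
  (∀ n ∈ S, b n ∈ Φ.F n ∧ b n ∉ Φ.F (n - 1)) ∧ ∀ n, n ∉ S → b n = 0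

/-- The products are given by the constants `c` up to degree drop `j`. -/
def Lev (b : ℤ → A) (c : ℕ → ℤ → ℤ → K) (j : ℕ) : Prop :=
  ∀ s ∈ S, ∀ t ∈ S, b s * b t - ∑ i ∈ range j, c i s t • b (s + t - i) ∈ Φ.F (s + t - j)

variable {Φ} {b : ℤ → A} {c : ℕ → ℤ → ℤ → K}

theorem IsB.mem (hb : Φ.IsB b) (n : ℤ) : b n ∈ Φ.F n := by
  by_cases h : n ∈ S
  · exact (hb.1 n h).1
  · rw [hb.2 n h]; exact zero_mem _

theorem IsB.coef (hb : Φ.IsB b) {n : ℤ} (hn : n ∈ S) {x : K} (h : x • b n ∈ Φ.F (n - 1)) :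
    x = 0 := by
  by_contra hx
  apply (hb.1 n hn).2
  have := (Φ.F (n - 1)).smul_mem x⁻¹ h
  rwa [smul_smul, inv_mul_cancel₀ hx, one_smul] at this

theorem IsB.uniq (hb : Φ.IsB b) (x : ℕ → K) (n : ℤ) (j : ℕ)
    (h : ∑ i ∈ range j, x i • b (n - i) ∈ Φ.F (n - j)) :
    ∀ i < j, n - i ∈ S → x i = 0 := by
  induction j with
  | zero => intro i hi; omega
  | succ j ih =>
    rw [sum_range_succ] at h
    have h1 : ∑ i ∈ range j, x i • b (n - i) ∈ Φ.F (n - j) := by
      have h2 := Φ.le h (show n - ((j + 1 : ℕ) : ℤ) ≤ n - j by push_cast; omega)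
      have h3 := (Φ.F (n - j)).smul_mem (x j) (hb.mem (n - j))
      simpa using sub_mem h2 h3
    have h4 := ih h1
    have h5 : ∑ i ∈ range j, x i • b (n - i) = 0 := by
      refine sum_eq_zero fun i hi => ?_
      by_cases hS : n - i ∈ S
      · rw [h4 i (mem_range.1 hi) hS, zero_smul]
      · rw [hb.2 _ hS, smul_zero]
    intro i hi hS
    rcases Nat.lt_succ_iff_lt_or_eq.1 hi with hi | rfl
    · exact h4 i hi hS
    · rw [h5, zero_add] at h
      refine hb.coef hS ?_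
      have : n - ((i + 1 : ℕ) : ℤ) = n - i - 1 := by push_cast; ring
      rwa [this] at h

theorem IsB.reduce (hb : Φ.IsB b) {n : ℤ} {f : A} (hf : f ∈ Φ.F n) :
    ∃ x : K, (n ∉ S → x = 0) ∧ f - x • b n ∈ Φ.F (n - 1) := by
  by_cases h : n ∈ S
  · obtain ⟨x, hx⟩ := Φ.one n f hf _ (hb.1 n h).1 (hb.1 n h).2
    exact ⟨x, fun h' => absurd h h', hx⟩
  · exact ⟨0, fun _ => rfl, by simpa using Φ.gap n h f hf⟩

theorem Lev.trunc (hb : Φ.IsB b) {j j' : ℕ} (h : Φ.Lev b c j) (hj : j' ≤ j) : Φ.Lev b c j' := by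
  induction j, hj using Nat.le_induction with
  | base => exact h
  | succ j hj ih =>
    apply ih
    intro s hs t ht
    have h1 := h s hs t ht
    rw [sum_range_succ] at h1
    have h2 := Φ.le h1 (show s + t - ((j + 1 : ℕ) : ℤ) ≤ s + t - j by push_cast; omega)
    have h3 := (Φ.F (s + t - j)).smul_mem (c j s t) (hb.mem (s + t - j))
    have h4 := add_mem h2 h3
    convert h4 using 1
    abel

theorem Lev.extend (hb : Φ.IsB b) {j : ℕ} (h : Φ.Lev b c j) :
    ∃ d : ℤ → ℤ → K, (∀ s t : ℤ, s + t - j ∉ S → d s t = 0) ∧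
      Φ.Lev b (Function.update c j d) (j + 1) := by
  classical
  have : ∀ s t : ℤ, ∃ x : K, (s + t - j ∉ S → x = 0) ∧ (s ∈ S → t ∈ S →
      b s * b t - ∑ i ∈ range j, c i s t • b (s + t - i) - x • b (s + t - j)
        ∈ Φ.F (s + t - j - 1)) := by
    intro s t
    by_cases hst : s ∈ S ∧ t ∈ S
    · obtain ⟨x, hx, hx'⟩ := hb.reduce (h s hst.1 t hst.2)
      exact ⟨x, hx, fun _ _ => hx'⟩
    · exact ⟨0, fun _ => rfl, fun h1 h2 => absurd ⟨h1, h2⟩ hst⟩
  choose d hd hd' using this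
  refine ⟨d, hd, fun s hs t ht => ?_⟩
  rw [sum_range_succ, Function.update_self]
  have h1 : ∑ i ∈ range j, Function.update c j d i s t • b (s + t - i)
      = ∑ i ∈ range j, c i s t • b (s + t - i) :=
    sum_congr rfl fun i hi => by rw [Function.update_of_ne (mem_range.1 hi).ne]
  have h2 : s + t - ((j + 1 : ℕ) : ℤ) = s + t - j - 1 := by push_cast; ring
  rw [h1, h2, ← sub_sub]
  exact hd' s t hs ht

/-- The constants vanish where the target index is not in `S`. -/
def Sup (S : AddSubmonoid ℤ) (c : ℕ → ℤ → ℤ → K) (j : ℕ) : Prop :=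
  ∀ i < j, ∀ s ∈ S, ∀ t ∈ S, s + t - i ∉ S → c i s t = 0

theorem Lev.symm (hb : Φ.IsB b) {j : ℕ} (h : Φ.Lev b c j) (hc : Sup S c j) {s t : ℤ}
    (hs : s ∈ S) (ht : t ∈ S) {i : ℕ} (hi : i < j) : c i s t = c i t s := by
  by_cases hS : s + t - i ∈ S
  · have h1 := h s hs t ht
    have h2 := h t ht s hs
    rw [add_comm t s, mul_comm (b t)] at h2
    have h3 := sub_mem h2 h1
    have h4 : ∑ i ∈ range j, (c i s t - c i t s) • b (s + t - i) ∈ Φ.F (s + t - j) := by
      convert h3 using 1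
      simp only [sub_smul, sum_sub_distrib]; abel
    exact sub_eq_zero.1 (hb.uniq _ _ _ h4 i hi hS)
  · rw [hc i hi s hs t ht hS, hc i hi t ht s hs (by rwa [add_comm t s])]

theorem Lev.triple (hb : Φ.IsB b) {j : ℕ} (h : Φ.Lev b c j) (hc : Sup S c j) {s t u : ℤ}
    (hs : s ∈ S) (ht : t ∈ S) (hu : u ∈ S) :
    b s * b t * b u - ∑ m ∈ range j,
      (∑ i ∈ range (m + 1), c i s t * c (m - i) (s + t - i) u) • b (s + t + u - m)
      ∈ Φ.F (s + t + u - j) := by
  have h1 := Φ.mul (h s hs t ht) (hb.mem u)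
  rw [show s + t - (j : ℤ) + u = s + t + u - j by ring] at h1
  have h2 : ∀ i ∈ range j, c i s t • (b (s + t - i) * b u -
      ∑ k ∈ range (j - i), c k (s + t - i) u • b (s + t - i + u - k)) ∈ Φ.F (s + t + u - j) := by
    intro i hi
    have hi' := mem_range.1 hi
    by_cases hS : s + t - i ∈ S
    · apply Submodule.smul_mem
      have := (h.trunc hb (Nat.sub_le j i)) _ hS u hu
      rwa [show s + t - (i : ℤ) + u - ((j - i : ℕ) : ℤ) = s + t + u - j by
        rw [Nat.cast_sub hi'.le]; ring] at this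
    · rw [hc i hi' s hs t ht hS, zero_smul]; exact zero_mem _
  have h3 := add_mem h1 (sum_mem h2)
  convert h3 using 1
  have h4 : ∑ m ∈ range j,
      (∑ i ∈ range (m + 1), c i s t * c (m - i) (s + t - i) u) • b (s + t + u - m)
      = ∑ i ∈ range j, ∑ k ∈ range (j - i),
        (c i s t * c k (s + t - i) u) • b (s + t - i + u - k) := by
    rw [← sum_range_diag_flip j
      (fun i k => (c i s t * c k (s + t - i) u) • b (s + t - i + u - k))]
    refine sum_congr rfl fun m _ => ?_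
    rw [sum_smul]
    refine sum_congr rfl fun i hi => ?_
    have := mem_range.1 hi
    congr 2
    rw [Nat.cast_sub (by omega)]; ring
  rw [h4]
  simp only [sub_mul, sum_mul, smul_sub, sum_sub_distrib, smul_mul_assoc, smul_sum, smul_smul]
  abel

theorem Lev.assoc (hb : Φ.IsB b) {j : ℕ} (h : Φ.Lev b c (j + 1)) (hc : Sup S c (j + 1))
    {s t u : ℤ} (hs : s ∈ S) (ht : t ∈ S) (hu : u ∈ S) :
    ∑ i ∈ range (j + 1), c i s t * c (j - i) (s + t - i) u
      = ∑ i ∈ range (j + 1), c i t u * c (j - i) (t + u - i) s := by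
  by_cases hS : s + t + u - j ∈ S
  · have h1 := h.triple hb hc hs ht hu
    have h2 := h.triple hb hc ht hu hs
    rw [show t + u + s = s + t + u by ring, show b t * b u * b s = b s * b t * b u by ring] at h2
    have h3 := sub_mem h2 h1
    have h4 : ∑ m ∈ range (j + 1), ((∑ i ∈ range (m + 1), c i s t * c (m - i) (s + t - i) u) -
        ∑ i ∈ range (m + 1), c i t u * c (m - i) (t + u - i) s) • b (s + t + u - m)
        ∈ Φ.F (s + t + u - ((j + 1 : ℕ) : ℤ)) := by
      convert h3 using 1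
      simp only [sub_smul, sum_sub_distrib]; abel
    exact sub_eq_zero.1 (hb.uniq _ _ _ h4 j (Nat.lt_succ_self j) hS)
  · rw [sum_eq_zero, sum_eq_zero]
    · intro i hi
      have := mem_range.1 hi
      by_cases h' : t + u - i ∈ S
      · rw [hc (j - i) (by omega) _ h' _ hs (by
          rwa [show t + u - (i : ℤ) + s - ((j - i : ℕ) : ℤ) = s + t + u - j by
            rw [Nat.cast_sub (by omega)]; ring]), mul_zero]
      · rw [hc i this t ht u hu h', zero_mul]
    · intro i hi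
      have := mem_range.1 hi
      by_cases h' : s + t - i ∈ S
      · rw [hc (j - i) (by omega) _ h' _ hu (by
          rwa [show s + t - (i : ℤ) + u - ((j - i : ℕ) : ℤ) = s + t + u - j by
            rw [Nat.cast_sub (by omega)]; ring]), mul_zero]
      · rw [hc i this s hs t ht h', zero_mul]

theorem IsB.change (hb : Φ.IsB b) {j : ℕ} (hj : 1 ≤ j) (μ : ℤ → K)
    (hμ : ∀ n, n ∉ S → μ n = 0) : Φ.IsB (fun n => b n - μ n • b (n - j)) := by
  refine ⟨fun n hn => ?_, fun n hn => by simp [hμ n hn, hb.2 n hn]⟩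
  have h1 : μ n • b (n - j) ∈ Φ.F (n - 1) :=
    Submodule.smul_mem _ _ (Φ.le (hb.mem _) (by omega))
  refine ⟨sub_mem (hb.mem n) (Φ.le h1 (by omega)), fun h => (hb.1 n hn).2 ?_⟩
  simpa using add_mem h h1

theorem Lev.change (hb : Φ.IsB b) {j : ℕ} (hj : 1 ≤ j) (h : Φ.Lev b c (j + 1))
    (h0 : ∀ s ∈ S, ∀ t ∈ S, c 0 s t = 1) (μ : ℤ → K) (hμ : ∀ n : ℤ, n - j ∉ S → μ n = 0) :
    Φ.Lev (fun n => b n - μ n • b (n - j))
      (Function.update c j fun s t => c j s t - (μ s + μ t - μ (s + t))) (j + 1) := by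
  intro s hs t ht
  set b' : ℤ → A := fun n => b n - μ n • b (n - j) with hb'
  have hd : ∀ n, b' n - b n ∈ Φ.F (n - j) := by
    intro n
    simp only [hb', sub_sub_cancel_left]
    exact neg_mem (Submodule.smul_mem _ _ (hb.mem _))
  have h1 := h.trunc hb (show 1 ≤ j + 1 by omega)
  have hp : ∀ s ∈ S, ∀ t : ℤ, μ t • (b s * b (t - j) - b (s + t - j))
      ∈ Φ.F (s + t - ((j + 1 : ℕ) : ℤ)) := by
    intro s hs t
    by_cases hS : t - j ∈ S
    · apply Submodule.smul_mem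
      have := h1 s hs _ hS
      simp only [range_one, sum_singleton, h0 s hs _ hS, one_smul, Nat.cast_zero, sub_zero,
        Nat.cast_one] at this
      rw [show s + (t - j) = s + t - j by ring] at this
      rwa [show s + t - ((j + 1 : ℕ) : ℤ) = s + t - j - 1 by push_cast; ring]
    · rw [hμ t hS, zero_smul]; exact zero_mem _
  have e1 := h s hs t ht
  have e2 := hp s hs t
  have e3 := hp t ht s
  rw [add_comm t s] at e3
  have e4 : (μ s * μ t) • (b (s - j) * b (t - j)) ∈ Φ.F (s + t - ((j + 1 : ℕ) : ℤ)) :=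
    Submodule.smul_mem _ _ (Φ.le (Φ.mul (hb.mem _) (hb.mem _)) (by push_cast; omega))
  obtain ⟨j', rfl⟩ : ∃ j', j = j' + 1 := ⟨j - 1, by omega⟩
  have e5 : ∑ i ∈ range j', c (i + 1) s t • (b' (s + t - (i + 1 : ℕ)) - b (s + t - (i + 1 : ℕ)))
      ∈ Φ.F (s + t - ((j' + 1 + 1 : ℕ) : ℤ)) :=
    sum_mem fun i _ => Submodule.smul_mem _ _ (Φ.le (hd _) (by push_cast; omega))
  have e6 : (c (j' + 1) s t - (μ s + μ t - μ (s + t))) •
      (b' (s + t - (j' + 1 : ℕ)) - b (s + t - (j' + 1 : ℕ)))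
      ∈ Φ.F (s + t - ((j' + 1 + 1 : ℕ) : ℤ)) :=
    Submodule.smul_mem _ _ (Φ.le (hd _) (by push_cast; omega))
  have e7 := sub_mem (sub_mem (add_mem (sub_mem (sub_mem e1 e2) e3) e4) e5) e6
  convert e7 using 1
  have h2 : ∑ i ∈ range (j' + 1), Function.update c (j' + 1)
      (fun s t => c (j' + 1) s t - (μ s + μ t - μ (s + t))) i s t • b' (s + t - i)
      = ∑ i ∈ range (j' + 1), c i s t • b' (s + t - i) :=
    sum_congr rfl fun i hi => by rw [Function.update_of_ne (mem_range.1 hi).ne]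
  rw [sum_range_succ, h2, Function.update_self, sum_range_succ _ (j' + 1), sum_range_succ',
    sum_range_succ' (fun i => c i s t • b (s + t - i))]
  have g1 : b' s = b s - μ s • b (s - (j' + 1 : ℕ)) := rfl
  have g2 : b' t = b t - μ t • b (t - (j' + 1 : ℕ)) := rfl
  have g3 : b' (s + t) = b (s + t) - μ (s + t) • b (s + t - (j' + 1 : ℕ)) := rfl
  simp only [Nat.cast_zero, sub_zero, h0 s hs t ht, one_smul, g1, g2, g3, smul_sub,
    sum_sub_distrib]
  simp only [Algebra.smul_def, map_sub, map_add, map_mul]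
  ring

end Fil
end Pool.Agent.Lib.MP_d9f0ae_ag.W3
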