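import Pool.Agent.Lib.MP_d9f0ae_ag.Geo

/-! Bases of filtered algebras and the translation of the counts. -/

namespace Pool.Agent.Lib.MP_d9f0ae_ag.W3
open Finset

theorem Fil.IsB.exists_basis {K A : Type*} [Field K] [CommRing A] [Algebra K A]
    {S : AddSubmonoid ℤ} {Φ : Fil K A S} {b : ℤ → A} (hb : Φ.IsB b) (S' : Set ℕ)
    (hS : ∀ n : ℕ, (n : ℤ) ∈ S ↔ n ∈ S') :
    ∃ B : Module.Basis S' K A, ∀ s, B s = b (s : ℕ) := by
  classical
  have li : LinearIndependent K fun s : S' => b (s : ℕ) := by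
    rw [linearIndependent_iff']
    intro t g h
    by_contra hn
    push Not at hn
    obtain ⟨m, hm, hmax⟩ := exists_max_image (t.filter fun i => g i ≠ 0) (fun i => (i : ℕ))
      (by obtain ⟨i, hi, hi'⟩ := hn; exact ⟨i, mem_filter.2 ⟨hi, hi'⟩⟩)
    obtain ⟨hm1, hm2⟩ := mem_filter.1 hm
    refine hm2 (hb.coef ((hS m).2 m.2) ?_)
    rw [← add_sum_erase t _ hm1] at h
    rw [eq_neg_of_add_eq_zero_left h]
    refine neg_mem (sum_mem fun i hi => ?_)
    obtain ⟨hi1, hi2⟩ := mem_erase.1 hi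
    by_cases h0 : g i = 0
    · rw [h0, zero_smul]; exact zero_mem _
    · have h1 := hmax i (mem_filter.2 ⟨hi2, h0⟩)
      have h2 : (i : ℕ) ≠ m := fun e => hi1 (Subtype.ext e)
      exact Submodule.smul_mem _ _ (Φ.le (hb.mem _) (by omega))
  have sp : ∀ n : ℕ, ∀ f ∈ Φ.F ((n : ℤ) - 1),
      f ∈ Submodule.span K (Set.range fun s : S' => b (s : ℕ)) := by
    intro n
    induction n with
    | zero => intro f hf; rw [Φ.bot _ (by simp) f hf]; exact zero_mem _
    | succ n ih =>
      intro f hf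
      rw [show ((n + 1 : ℕ) : ℤ) - 1 = n by push_cast; ring] at hf
      obtain ⟨x, -, hx⟩ := hb.reduce hf
      have h1 : b n ∈ Submodule.span K (Set.range fun s : S' => b (s : ℕ)) := by
        by_cases h : n ∈ S'
        · exact Submodule.subset_span ⟨⟨n, h⟩, rfl⟩
        · rw [hb.2 _ (mt (hS n).1 h)]; exact zero_mem _
      simpa using add_mem (ih _ hx) (Submodule.smul_mem _ x h1)
  refine ⟨Module.Basis.mk li fun f _ => ?_, fun s => Module.Basis.mk_apply _ _ _⟩
  obtain ⟨n, hn⟩ := Φ.exh f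
  exact sp (n.toNat + 1) f (Φ.le hn (by push_cast; omega))

section semigroup
variable {S : Set ℕ} (h0 : 0 ∈ S) (hadd : ∀ x ∈ S, ∀ y ∈ S, x + y ∈ S) {a b c : ℕ}
  (hg : {x | IsGen S x} = {a, b, c})
include hg

theorem isGen_iff (x : ℕ) : IsGen S x ↔ x = a ∨ x = b ∨ x = c := by
  have := Set.ext_iff.1 hg x
  simpa using this

include h0 hadd in
theorem comb_mem (i j k : ℕ) : i * a + j * b + k * c ∈ S := by
  have m : ∀ x ∈ S, ∀ n : ℕ, n * x ∈ S := fun x hx n => by
    induction n with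
    | zero => simpa using h0
    | succ n ih => rw [add_mul, one_mul]; exact hadd _ ih _ hx
  exact hadd _ (hadd _ (m _ ((isGen_iff hg a).2 (by simp)).1 i) _
    (m _ ((isGen_iff hg b).2 (by simp)).1 j)) _ (m _ ((isGen_iff hg c).2 (by simp)).1 k)

include h0 hadd in
theorem mem_iff (n : ℕ) : (n : ℤ) ∈ S3 a b c ↔ n ∈ S := by
  constructor
  · rintro ⟨i, j, k, e⟩
    have : n = i * a + j * b + k * c := by exact_mod_cast e
    rw [this]; exact comb_mem h0 hadd hg i j k
  · induction n using Nat.strong_induction_on with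
    | _ n ih =>
    intro hn
    by_cases h : IsGen S n
    · rcases (isGen_iff hg n).1 h with rfl | rfl | rfl
      · exact ⟨1, 0, 0, by simp⟩
      · exact ⟨0, 1, 0, by simp⟩
      · exact ⟨0, 0, 1, by simp⟩
    · rcases Nat.eq_zero_or_pos n with rfl | hp
      · exact zero_mem _
      · have : ∃ x ∈ S, ∃ y ∈ S, 0 < x ∧ 0 < y ∧ n = x + y := by
          by_contra h'
          exact h ⟨hn, hp, h'⟩
        obtain ⟨x, hx, y, hy, hx0, hy0, rfl⟩ := this
        push_cast
        exact add_mem (ih x (by omega) hx) (ih y (by omega) hy)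

omit hg in
include h0 hadd in
theorem not_comb {x y z : ℕ} (hx : IsGen S x) (hy : IsGen S y) (hz : IsGen S z) (hxy : x ≠ y)
    (hxz : x ≠ z) (j k : ℤ) (hj : 0 ≤ j) (hk : 0 ≤ k) : (x : ℤ) ≠ j * y + k * z := by
  lift j to ℕ using hj
  lift k to ℕ using hk
  intro e
  have e' : x = j * y + k * z := by exact_mod_cast e
  have m : ∀ x ∈ S, ∀ n : ℕ, n * x ∈ S := fun x hx n => by
    induction n with
    | zero => simpa using h0
    | succ n ih => rw [add_mul, one_mul]; exact hadd _ ih _ hx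
  apply hx.2.2
  rcases j with _ | j
  · rcases k with _ | k
    · have := hx.2.1; omega
    · have e2 : x = z + k * z := by rw [e']; ring
      exact ⟨z, hz.1, _, m z hz.1 k, hz.2.1, by omega, e2⟩
  · have e2 : x = y + (j * y + k * z) := by rw [e']; ring
    exact ⟨y, hy.1, _, hadd _ (m y hy.1 j) _ (m z hz.1 k), hy.2.1, by omega, e2⟩

include h0 hadd in
theorem genus_eq {M0 : ℕ} (hM0 : ∀ n, M0 ≤ n → n ∈ S) :
    (genus S : ℤ) = ∑ i ∈ range M0, chi (S3 a b c) i := by
  classical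
  have : Sᶜ = ↑((range M0).filter fun i : ℕ => (i : ℤ) ∉ S3 a b c) := by
    ext n
    simp only [Set.mem_compl_iff, coe_filter, mem_range, Set.mem_ofPred_eq, mem_iff h0 hadd hg]
    exact ⟨fun h => ⟨by by_contra h'; exact h (hM0 n (by omega)), h⟩, fun h => h.2⟩
  rw [genus, this, Set.ncard_coe_finset, card_filter]
  push_cast
  refine sum_congr rfl fun i _ => ?_
  unfold chi
  split_ifs <;> rfl

include h0 hadd in
theorem ew_le {M0 : ℕ} (hM0 : ∀ n, M0 ≤ n → n ∈ S) :
    (ew S : ℤ) ≤ ∑ l ∈ range M0, nA a b c l := by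
  classical
  let U : ℕ → Finset (ℕ × ℕ) := fun x =>
    ((range M0).filter fun l : ℕ => (x : ℤ) + l ∉ S3 a b c).image fun l => (x, x + l)
  have hU : ∀ x, ((U x).card : ℤ) ≤ ∑ l ∈ range M0, chi (S3 a b c) (x + l) := by
    intro x
    refine (Int.ofNat_le.2 card_image_le).trans (le_of_eq ?_)
    rw [card_filter]
    push_cast
    refine sum_congr rfl fun i _ => ?_
    unfold chi
    split_ifs <;> rfl
  have hsub : {p : ℕ × ℕ | IsGen S p.1 ∧ p.2 ∉ S ∧ p.1 < p.2} ⊆ ↑(U a ∪ U b ∪ U c) := by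
    rintro ⟨x, y⟩ ⟨h1, h2, h3⟩
    simp only at h1 h2 h3
    have hy : y < M0 := by by_contra h'; exact h2 (hM0 y (by omega))
    have : (x, y) ∈ U x := mem_image.2 ⟨y - x, mem_filter.2 ⟨mem_range.2 (by omega), by
      rw [← Nat.cast_add, mem_iff h0 hadd hg, Nat.add_sub_cancel' h3.le]; exact h2⟩,
      by rw [Nat.add_sub_cancel' h3.le]⟩
    rw [mem_coe, mem_union, mem_union]
    rcases (isGen_iff hg x).1 h1 with rfl | rfl | rfl
    · exact Or.inl (Or.inl this)
    · exact Or.inl (Or.inr this)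
    · exact Or.inr this
  have h1 := Set.ncard_le_ncard hsub (finite_toSet _)
  rw [Set.ncard_coe_finset] at h1
  have h2 := card_union_le (U a ∪ U b) (U c)
  have h3 := card_union_le (U a) (U b)
  have := hU a; have := hU b; have := hU c
  unfold nA ew
  rw [sum_add_distrib, sum_add_distrib]
  omega

end semigroup
end Pool.Agent.Lib.MP_d9f0ae_ag.W3
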