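import Pool.Agent.Lib.MP_d9f0ae_ag.Cnt

/-! The total parameter count for a semigroup with three generators. -/

namespace Pool.Agent.Lib.MP_d9f0ae_ag.W3
open Finset

namespace Lsh
variable {a b c : ℤ} (L : Lsh a b c)

theorem d_mem : L.d1 ∈ S3 a b c ∧ L.d2 ∈ S3 a b c ∧ L.d3 ∈ S3 a b c := by
  have := L.hal; have := L.hal'; have := L.hbe; have := L.hbe'; have := L.hga; have := L.hga'
  exact ⟨mem_S3' (L.al + L.al') 0 0 (by omega) le_rfl le_rfl (by unfold d1; ring),
    mem_S3' 0 (L.be + L.be') 0 le_rfl (by omega) le_rfl (by unfold d2; ring),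
    mem_S3' 0 0 (L.ga + L.ga') le_rfl le_rfl (by omega) (by unfold d3; ring)⟩

theorem ineqs (hm : Mini a b c) : (a ≠ b ∧ a ≠ c ∧ b ≠ c) ∧ (2 * a ≤ L.d1 ∧ b + c ≤ L.d1) ∧
    (2 * b ≤ L.d2 ∧ (a + c ≤ L.d2 ∨ (L.ga' = 0 ∧ 2 * a ≤ L.d2))) ∧
    (2 * c ≤ L.d3 ∧ (a + b ≤ L.d3 ∨ (L.be = 0 ∧ 2 * a ≤ L.d3) ∨ (L.al' = 0 ∧ 2 * b ≤ L.d3))) := by
  have ha := L.ha; have hb := L.hb; have hc := L.hc
  have := L.hal; have := L.hal'; have := L.hbe; have := L.hbe'; have := L.hga; have := L.hga'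
  have r1 := L.r1; have r2 := L.r2; have r3 := L.r3
  unfold d1 d2 d3
  have p1 : 2 ≤ L.al + L.al' := by
    by_contra h
    have e : L.al + L.al' = 1 := by omega
    rw [e] at r1
    exact hm.ma L.be' L.ga (by omega) (by omega) (by linear_combination r1)
  have p2 : 2 ≤ L.be + L.be' := by
    by_contra h
    have e : L.be + L.be' = 1 := by omega
    rw [e] at r2
    exact hm.mb L.al L.ga' (by omega) (by omega) (by linear_combination r2)
  have p3 : 2 ≤ L.ga + L.ga' := by
    by_contra h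
    have e : L.ga + L.ga' = 1 := by omega
    rw [e] at r3
    exact hm.mc L.al' L.be (by omega) (by omega) (by linear_combination r3)
  refine ⟨⟨fun h => hm.ma 1 0 zero_le_one le_rfl (by linear_combination h),
    fun h => hm.ma 0 1 le_rfl zero_le_one (by linear_combination h),
    fun h => hm.mb 0 1 le_rfl zero_le_one (by linear_combination h)⟩,
    ⟨by nlinarith, by nlinarith⟩, ⟨by nlinarith, ?_⟩, by nlinarith, ?_⟩
  · by_cases h : L.ga' = 0
    · refine Or.inr ⟨h, ?_⟩
      have : 2 ≤ L.al := by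
        by_contra h'
        have e : L.al = 1 := by omega
        rw [e, h] at r2
        exact hm.ma (L.be + L.be') 0 (by omega) le_rfl (by linear_combination -r2)
      rw [r2, h]; nlinarith
    · left
      have : 1 ≤ L.ga' := by omega
      nlinarith
  · by_cases h : L.be = 0
    · refine Or.inr (Or.inl ⟨h, ?_⟩)
      have h4 := L.al'_or_be
      have : 2 ≤ L.al' := by
        by_contra h'
        have e : L.al' = 1 := by omega
        rw [e, h] at r3
        exact hm.ma 0 (L.ga + L.ga') le_rfl (by omega) (by linear_combination -r3)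
      rw [r3, h]; nlinarith
    by_cases h' : L.al' = 0
    · refine Or.inr (Or.inr ⟨h', ?_⟩)
      have : 2 ≤ L.be := by
        by_contra h''
        have e : L.be = 1 := by omega
        rw [e, h'] at r3
        exact hm.mb 0 (L.ga + L.ga') le_rfl (by omega) (by linear_combination -r3)
      rw [r3, h']; nlinarith
    · left
      have : 1 ≤ L.be := by omega
      have : 1 ≤ L.al' := by omega
      nlinarith

theorem excess (hm : Mini a b c) {M0 : ℕ} (hM0 : ∀ n : ℤ, M0 ≤ n → n ∈ S3 a b c) {l0 : ℕ}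
    (hl0 : L.rho l0 ≠ 0) : 0 ≤ ∑ l ∈ range M0, L.psi l := by
  have ha := L.ha; have hb := L.hb; have hc := L.hc
  have := L.hal; have := L.hal'; have := L.hbe; have := L.hbe'; have := L.hga; have := L.hga'
  obtain ⟨F, hF, hF'⟩ := Int.exists_greatest_of_bdd (P := fun n => n ∉ S3 a b c)
    ⟨M0, fun z hz => by by_contra h; exact hz (hM0 z (by omega))⟩ ⟨_, L.F1_not⟩
  have hF2 : ∀ n, F < n → n ∈ S3 a b c := fun n hn => by
    by_contra h; have := hF' n h; omega
  have hFM : F < M0 := by by_contra h; exact hF (hM0 F (by omega))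
  obtain ⟨m1, m2, m3⟩ := L.d_mem
  have hd : L.d1 < F ∨ L.d2 < F ∨ L.d3 < F := by
    by_contra h
    push Not at h
    have n1 : L.d1 ≠ F := fun e => hF (e ▸ m1)
    have n2 : L.d2 ≠ F := fun e => hF (e ▸ m2)
    have n3 : L.d3 ≠ F := fun e => hF (e ▸ m3)
    apply hl0
    unfold rho
    rw [chi_mem (hF2 _ (by omega)), chi_mem (hF2 _ (by omega)), chi_mem (hF2 _ (by omega))]
    simp
  obtain ⟨g1, g2, g3⟩ := L.good hF hF2
  obtain ⟨⟨n1, n2, n3⟩, ⟨i1, i1'⟩, ⟨i2, i2'⟩, i3, i3'⟩ := L.ineqs hm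
  have low : ∀ l : ℕ, -1 ≤ L.psi l := fun l => by rcases L.psi_ge l with h | h <;> omega
  have one : ∀ x : ℤ, (∀ l : ℤ, l ∉ S3 a b c → nA a b c l = 0 → l = x) →
      0 ≤ ∑ l ∈ range M0, L.psi l := by
    intro x hx
    obtain ⟨s, hs0, hs, hs'⟩ : ∃ s, 0 < s ∧ s < F ∧ 1 ≤ L.psi (F - s) := by
      have : (a + b < L.d1 ∧ a + b < L.d2 ∧ a + b < L.d3) ∨
          (a + c < L.d1 ∧ a + c < L.d2 ∧ a + c < L.d3) ∨
          (b + c < L.d1 ∧ b + c < L.d2 ∧ b + c < L.d3) := by omega
      rcases this with h | h | h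
      · exact ⟨_, by omega, by omega, g1 (by omega)⟩
      · exact ⟨_, by omega, by omega, g2 (by omega)⟩
      · exact ⟨_, by omega, by omega, g3 (by omega)⟩
    refine sum_nonneg_of _ {(F - s).toNat} {x.toNat} (fun l => L.psi l) (fun l hl => ?_)
      (fun l hl => ?_) low (fun l hl => ?_) (by simp)
    · rw [mem_singleton.1 hl, mem_range]; omega
    · rw [mem_singleton.1 hl, Int.toNat_of_nonneg (by omega)]; exact hs'
    · rcases L.psi_ge l with h | h
      · exact h
      · exact absurd (mem_singleton.2 (by have := hx l h.2.1 h.2.2; omega)) hl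
  by_cases h1 : L.be = 0
  · refine one L.F2 fun l hl h => (L.pf hl h).elim (fun e => ?_) id
    exact pf_unique L.F2_not h (mem_S3' 0 0 L.ga' le_rfl le_rfl (by omega)
      (by rw [e]; unfold F1 F2; rw [h1]; ring))
  by_cases h2 : L.ga' = 0
  · refine one L.F1 fun l hl h => (L.pf hl h).elim id fun e => ?_
    exact pf_unique L.F1_not h (mem_S3' 0 L.be 0 le_rfl (by omega) le_rfl
      (by rw [e]; unfold F1 F2; rw [h2]; ring))
  by_cases h3 : L.al' = 0
  · refine one L.F1 fun l hl h => (L.pf hl h).elim id fun e => ?_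
    have r3 := L.r3
    rw [h3] at r3
    exact pf_unique L.F1_not h (mem_S3' 0 0 L.ga le_rfl le_rfl (by omega)
      (by rw [e]; unfold F1 F2; linear_combination -r3))
  have q12 : L.d1 ≠ L.d2 := fun e => L.minh L.ga (by omega) (by omega) 0 L.be le_rfl (by omega)
    (by unfold d1 d2 at e; linear_combination e - L.r1)
  have q13 : L.d1 ≠ L.d3 := fun e => L.minw L.be (by omega) (by omega) L.al 0 (by omega) le_rfl
    (by unfold d1 d3 at e; linear_combination -e - L.r3)
  have q23 : L.d2 ≠ L.d3 := fun e => L.minh L.ga (by omega) (by omega) L.al 0 (by omega) le_rfl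
    (by unfold d2 d3 at e; linear_combination L.r2 - e)
  obtain ⟨s, t, hst, hs0, ht0, hs, ht, hs', ht'⟩ : ∃ s t, s ≠ t ∧ 0 < s ∧ 0 < t ∧ s < F ∧ t < F ∧
      1 ≤ L.psi (F - s) ∧ 1 ≤ L.psi (F - t) := by
    have : ((a + b < L.d1 ∧ a + b < L.d2 ∧ a + b ≤ L.d3) ∧
        (a + c < L.d1 ∧ a + c ≤ L.d2 ∧ a + c < L.d3) ∧ a + b < F ∧ a + c < F) ∨
        ((a + b < L.d1 ∧ a + b < L.d2 ∧ a + b ≤ L.d3) ∧
        (b + c ≤ L.d1 ∧ b + c < L.d2 ∧ b + c < L.d3) ∧ a + b < F ∧ b + c < F) ∨
        ((a + c < L.d1 ∧ a + c ≤ L.d2 ∧ a + c < L.d3) ∧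
        (b + c ≤ L.d1 ∧ b + c < L.d2 ∧ b + c < L.d3) ∧ a + c < F ∧ b + c < F) := by
      have j2 : a + c ≤ L.d2 := by omega
      have j3 : a + b ≤ L.d3 := by omega
      clear i2' i3'
      omega
    rcases this with h | h | h
    · exact ⟨_, _, by omega, by omega, by omega, h.2.2.1, h.2.2.2, g1 h.1, g2 h.2.1⟩
    · exact ⟨_, _, by omega, by omega, by omega, h.2.2.1, h.2.2.2, g1 h.1, g3 h.2.1⟩
    · exact ⟨_, _, by omega, by omega, by omega, h.2.2.1, h.2.2.2, g2 h.1, g3 h.2.1⟩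
  refine sum_nonneg_of _ {(F - s).toNat, (F - t).toNat} {L.F1.toNat, L.F2.toNat}
    (fun l => L.psi l) (fun l hl => ?_) (fun l hl => ?_) low (fun l hl => ?_) ?_
  · rw [mem_insert, mem_singleton] at hl
    rw [mem_range]; omega
  · rw [mem_insert, mem_singleton] at hl
    rcases hl with rfl | rfl
    · rw [Int.toNat_of_nonneg (by omega)]; exact hs'
    · rw [Int.toNat_of_nonneg (by omega)]; exact ht'
  · rcases L.psi_ge l with h | h
    · exact h
    · refine absurd ?_ hl
      rw [mem_insert, mem_singleton]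
      have := L.pf h.2.1 h.2.2
      omega
  · rw [card_pair (show (F - s).toNat ≠ (F - t).toNat by omega)]
    exact card_le_two

theorem total (hm : Mini a b c) {M0 : ℕ} (hM0 : ∀ n : ℤ, M0 ≤ n → n ∈ S3 a b c) :
    ∃ M : ℕ, (∀ w : ℕ, M < w → (nA a b c (-w) - L.rho (-w) - 1).toNat = 0) ∧
      ((∑ w ∈ Icc 1 M, (nA a b c (-(w : ℕ)) - L.rho (-(w : ℕ)) - 1).toNat - 1 : ℕ) : ℤ) ≤
        max (2 * ∑ i ∈ range M0, chi (S3 a b c) i - 2)
          (3 * ∑ i ∈ range M0, chi (S3 a b c) i - 2 - ∑ l ∈ range M0, nA a b c l) := by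
  have hS := S3_nonneg L.ha L.hb L.hc
  have ha := L.ha; have hb := L.hb; have hc := L.hc
  have := L.hal; have := L.hal'; have := L.hbe; have := L.hbe'; have := L.hga; have := L.hga'
  obtain ⟨m1, m2, m3⟩ := L.d_mem
  have p1 := hS _ m1; have p2 := hS _ m2; have p3 := hS _ m3
  have p4 : 0 ≤ L.e1 := by unfold e1; positivity
  obtain ⟨M, hM⟩ : ∃ M : ℕ, M0 + a + b + c + L.d1 + L.d2 + L.d3 + L.e1 ≤ M :=
    ⟨_, Int.self_le_toNat _⟩
  have neg : ∀ n : ℤ, n < 0 → chi (S3 a b c) n = 1 := fun n hn =>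
    chi_not fun h => by have := hS n h; omega
  refine ⟨M, fun w hw => ?_, ?_⟩
  · unfold nA rho
    rw [neg _ (by omega), neg _ (by omega), neg _ (by omega), neg _ (by omega), neg _ (by omega),
      neg _ (by omega)]
    simp
  set g := ∑ i ∈ range M0, chi (S3 a b c) i with hg
  have hMM : M0 ≤ M := by omega
  have cast : ((∑ w ∈ Icc 1 M, (nA a b c (-(w : ℕ)) - L.rho (-(w : ℕ)) - 1).toNat : ℕ) : ℤ)
      = ∑ w ∈ Icc 1 M, nA a b c (-(w : ℕ)) - ∑ w ∈ Icc 1 M, L.rho (-(w : ℕ)) - M := by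
    rw [Nat.cast_sum, sum_congr rfl
      (g := fun w : ℕ => nA a b c (-(w : ℕ)) - L.rho (-(w : ℕ)) - 1) fun w hw => ?_]
    · simp [sum_sub_distrib]
    · have := (mem_Icc.1 hw).1
      have h1 := L.phi_ge (-(w : ℕ))
      have h2 := L.nA_neg hm (l := -(w : ℕ)) (by omega)
      omega
  have s1 := sum_split (nA a b c) M
  have s2 := sum_split L.rho M
  have w1 : ∑ i ∈ range (M + M), nA a b c (i - M) = 3 * M - (a + b + c) + 3 * g := by
    unfold nA
    rw [sum_add_distrib, sum_add_distrib, sum_W hS hM0 M hMM a (by omega) (by omega),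
      sum_W hS hM0 M hMM b (by omega) (by omega), sum_W hS hM0 M hMM c (by omega) (by omega)]
    ring
  have w2 := sum_le_sum (s := range (M + M)) fun (i : ℕ) _ => L.rho_ge (i - M)
  rw [sum_sub_distrib, sum_sub_distrib, sum_add_distrib, sum_add_distrib,
    sum_W hS hM0 M hMM _ p1 (by omega), sum_W hS hM0 M hMM _ p2 (by omega),
    sum_W hS hM0 M hMM _ p3 (by omega), sum_W hS hM0 M hMM _ p4 (by omega), sum_boole] at w2
  have w3 : ((range (M + M)).filter fun i : ℕ => L.e1 + (i - M) ∈ L.Box).card ≤ L.Box.card :=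
    card_le_card_of_injOn (fun i : ℕ => L.e1 + (i - M)) (fun i hi => (mem_filter.1 hi).2)
      fun i _ j _ e => by simp only at e; omega
  have w4 := L.genus_ge hM0
  have w5 : L.F2 = L.d1 + L.d2 + L.d3 - L.e1 - (a + b + c) := by
    unfold F2 d1 d2 d3 e1; linear_combination -L.r1
  have t1 : ∑ l ∈ range M, nA a b c l = ∑ l ∈ range M0, nA a b c l :=
    sum_tail (fun l => nA a b c l) hMM fun l hl => by
      unfold nA
      rw [chi_mem (hM0 _ (by omega)), chi_mem (hM0 _ (by omega)), chi_mem (hM0 _ (by omega))]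
      simp
  have t2 : ∑ l ∈ range M, L.rho l = ∑ l ∈ range M0, L.rho l :=
    sum_tail (fun l => L.rho l) hMM fun l hl => by
      unfold rho
      rw [chi_mem (hM0 _ (by omega)), chi_mem (hM0 _ (by omega)), chi_mem (hM0 _ (by omega))]
      simp
  have g1 : 1 ≤ g := by
    have h1 : (1 : ℤ) ∉ S3 a b c := by
      intro h
      obtain ⟨i, j, k, hi, hj, hk, e⟩ := S3_elim h
      have e1 : 0 ≤ i * a := by positivity
      have e2 : 0 ≤ j * b := by positivity
      have e3 : 0 ≤ k * c := by positivity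
      by_cases h1 : a = 1
      · exact hm.mb b 0 hb.le le_rfl (by rw [h1]; ring)
      by_cases h2 : b = 1
      · exact hm.ma a 0 ha.le le_rfl (by rw [h2]; ring)
      by_cases h3 : c = 1
      · exact hm.ma 0 a le_rfl ha.le (by rw [h3]; ring)
      have : i = 0 := by by_contra h; nlinarith [show 1 ≤ i by omega, show 2 ≤ a by omega]
      have : j = 0 := by by_contra h; nlinarith [show 1 ≤ j by omega, show 2 ≤ b by omega]
      have : k = 0 := by by_contra h; nlinarith [show 1 ≤ k by omega, show 2 ≤ c by omega]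
      simp_all
    have h2 : 1 ∈ range M0 := mem_range.2 (by by_contra h; exact h1 (hM0 1 (by omega)))
    have := single_le_sum (f := fun i : ℕ => chi (S3 a b c) i) (fun i _ => (chi_01 _ _).1) h2
    simp only [Nat.cast_one] at this
    rw [chi_not h1] at this
    exact this
  by_cases h : ∃ l : ℕ, L.rho l ≠ 0
  · obtain ⟨l0, hl0⟩ := h
    have ex := L.excess hm hM0 hl0
    unfold psi at ex
    rw [sum_sub_distrib, sum_sub_distrib] at ex
    omega
  · push Not at h
    have : ∑ l ∈ range M0, L.rho l = 0 := sum_eq_zero fun l _ => h l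
    omega

end Lsh
end Pool.Agent.Lib.MP_d9f0ae_ag.W3
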