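import Pool.Agent.Lib.MP_d9f0ae_ag.Defs
import Pool.Agent.Lib.MP_d9f0ae_ag.Tot

/-! From a place of a function field to a filtered algebra. -/

namespace Pool.Agent.Lib.MP_d9f0ae_ag.W3
open Finset WithZero Polynomial

theorem le_pred {x : WithZero (Multiplicative ℤ)} {n : ℤ} (h : x < exp n) : x ≤ exp (n - 1) := by
  induction x using WithZero.expRecOn with
  | zero => exact zero_le
  | exp m => rw [exp_lt_exp] at h; rw [exp_le_exp]; omega

variable {K F : Type*} [Field K] [Field F] [Algebra K F] [IsAlgClosed K]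
  {v : Valuation F (WithZero (Multiplicative ℤ))}
  (hK : ∀ x : K, x ≠ 0 → v (algebraMap K F x) = 1)
include hK

omit [IsAlgClosed K] in
theorem v_const (x : K) : v (algebraMap K F x) ≤ 1 := by
  by_cases h : x = 0
  · simp [h]
  · exact (hK x h).le

theorem eq_zero_of_lt {f : F} (hf : f ∈ regular K v) (h : v f < 1) : f = 0 := by
  have h1 : f ∈ (integralClosure (Subring.closure (Set.range (algebraMap K F))) F).toSubring := by
    rw [← iInf_valuationSubring_superset, Subring.mem_iInf]
    rintro ⟨O, hO⟩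
    by_cases e : O = v.valuationSubring
    · subst e; exact h.le
    · exact hf O (fun x => hO ⟨x, rfl⟩) e
  have h2 : Subring.closure (Set.range (algebraMap K F)) = (algebraMap K F).range := by
    rw [← RingHom.coe_range, Subring.closure_eq]
  rw [h2] at h1
  have h3 : IsIntegral (algebraMap K F).range f := h1
  have h4 : IsIntegral K f := by
    obtain ⟨p, hp, hp0⟩ := h3
    obtain ⟨q, hq, -, hq'⟩ := lifts_and_degree_eq_and_monic
      (f := (algebraMap K F).rangeRestrict) (p := p)
      (by rw [lifts_iff_coeff_lifts]; exact fun n => (algebraMap K F).rangeRestrict_surjective _) hp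
    refine ⟨q, hq', ?_⟩
    rw [← hq, eval₂_map] at hp0
    exact hp0
  obtain ⟨x, rfl⟩ := minpoly.mem_range_of_degree_eq_one K f
    (IsAlgClosed.degree_eq_one_of_irreducible K (minpoly.irreducible h4))
  by_contra h0
  rw [hK x (by rintro rfl; simp at h0)] at h
  exact lt_irrefl _ h

theorem residue (htr : Algebra.trdeg K F = 1) {π : F} (hπ0 : π ≠ 0) (hπ : v π < 1) {u : F}
    (hu : v u ≤ 1) : ∃ x : K, v (u - algebraMap K F x) < 1 := by
  by_contra h
  push Not at h
  have h1 : ∀ x : K, v (u - algebraMap K F x) = 1 := fun x =>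
    le_antisymm (v.map_sub_le hu (v_const hK x)) (h x)
  have h2 : ∀ q : K[X], q ≠ 0 → v (aeval u q) = 1 := by
    intro q hq
    rw [(IsAlgClosed.splits q).eq_prod_roots, map_mul, map_mul, aeval_C,
      hK _ (leadingCoeff_ne_zero.2 hq), one_mul, map_multiset_prod, map_multiset_prod]
    refine Multiset.prod_eq_one fun y hy => ?_
    simp only [Multiset.mem_map] at hy
    obtain ⟨_, ⟨_, ⟨x, -, rfl⟩, rfl⟩, rfl⟩ := hy
    simpa using h1 x
  have h3 : AlgebraicIndependent K (fun _ : Unit => u) :=
    algebraicIndependent_unique_type_iff.2 fun ⟨q, hq, hq0⟩ => by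
      have := h2 q hq
      rw [hq0] at this
      simp at this
  have h4 : ∀ y : Algebra.adjoin K (Set.range fun _ : Unit => u), y ≠ 0 → v (y : F) = 1 := by
    rintro ⟨y, hy⟩ hy0
    have hy' := hy
    rw [Set.range_const, Algebra.adjoin_singleton_eq_range_aeval] at hy'
    obtain ⟨q, rfl⟩ := hy'
    exact h2 q (by rintro rfl; exact hy0 (Subtype.ext (by simp)))
  have h5 : Transcendental (Algebra.adjoin K (Set.range fun _ : Unit => u)) π := by
    rintro ⟨p, hp, hp0⟩
    obtain ⟨q, hq, hq'⟩ := exists_eq_pow_rootMultiplicity_mul_and_not_dvd p hp 0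
    rw [map_zero, sub_zero] at hq hq'
    rw [hq, map_mul, map_pow, aeval_X] at hp0
    have h6 := (mul_eq_zero.1 hp0).resolve_left (pow_ne_zero _ hπ0)
    have h7 : v (aeval π q.divX) ≤ 1 := by
      rw [aeval_eq_sum_range]
      refine v.map_sum_le fun i _ => ?_
      rw [Algebra.smul_def, map_mul, map_pow]
      refine mul_le_one' ?_ (pow_le_one' hπ.le _)
      by_cases h0 : q.divX.coeff i = 0
      · simp [h0]
      · exact (h4 _ h0).le
    rw [← q.divX_mul_X_add, map_add, map_mul, aeval_X, aeval_C] at h6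
    have h8 := h4 _ (mt X_dvd_iff.2 hq')
    have h9 : ((q.coeff 0 : Algebra.adjoin K (Set.range fun _ : Unit => u)) : F)
        = -(aeval π q.divX * π) := eq_neg_of_add_eq_zero_right h6
    rw [h9, v.map_neg, map_mul] at h8
    exact absurd h8 ((mul_le_of_le_one_left' h7).trans_lt hπ).ne
  have h6 := ((h3.option_iff_transcendental π).2 h5).lift_cardinalMk_le_trdeg
  rw [htr] at h6
  simp at h6

/-- The filtration by pole order. -/
noncomputable def poleFil (htr : Algebra.trdeg K F = 1) {π : F} (hπ : v π = exp (-1))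
    (S : AddSubmonoid ℤ) (hS : ∀ n : ℕ, n ∈ weierstrass K v → (n : ℤ) ∈ S) :
    Fil K (regular K v) S where
  F n :=
    { carrier := {f | v (f : F) ≤ exp n}
      add_mem' := fun hf hg => v.map_add_le hf hg
      zero_mem' := by simp
      smul_mem' := fun x f hf => by
        change v ((x • f : regular K v) : F) ≤ exp n
        rw [SetLike.val_smul, Algebra.smul_def, map_mul]
        exact (mul_le_of_le_one_left' (v_const hK x)).trans hf }
  mono := fun _ _ h _ hf => le_trans hf (exp_le_exp.2 h)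
  bot := fun n hn f hf => Subtype.ext (eq_zero_of_lt hK f.2
    (lt_of_le_of_lt hf (by rw [← exp_zero, exp_lt_exp]; exact hn)))
  mul := fun {m n f g} hf hg => by
    change v ((f : F) * g) ≤ exp (m + n)
    rw [map_mul, exp_add]
    exact mul_le_mul' hf hg
  exh := fun f => ⟨log (v (f : F)), le_exp_log⟩
  gap := fun n hn f hf => by
    refine le_pred (lt_of_le_of_ne hf fun e => hn ?_)
    have h0 : 0 ≤ n := by
      by_contra h
      have := eq_zero_of_lt hK f.2 (e ▸ (by rw [← exp_zero, exp_lt_exp]; omega))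
      rw [this, map_zero] at e
      exact exp_ne_zero e.symm
    lift n to ℕ using h0
    exact hS n ⟨f, f.2, e⟩
  one := fun n f hf g hg hg' => by
    have e : v (g : F) = exp n := by
      by_contra h
      exact hg' (le_pred (lt_of_le_of_ne hg h))
    have hg0 : (g : F) ≠ 0 := fun h => by rw [h, map_zero] at e; exact exp_ne_zero e.symm
    obtain ⟨x, hx⟩ := residue hK htr (π := π)
      (fun h => by rw [h, map_zero] at hπ; exact exp_ne_zero hπ.symm)
      (by rw [hπ, ← exp_zero, exp_lt_exp]; omega) (u := (f : F) / g)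
      (by rw [map_div₀, e]; exact div_le_one_of_le₀ hf zero_le)
    refine ⟨x, le_pred ?_⟩
    have : ((f - x • g : regular K v) : F) = ((f : F) / g - algebraMap K F x) * g := by
      rw [AddSubgroupClass.coe_sub, SetLike.val_smul, Algebra.smul_def]; field_simp
    rw [this, map_mul, e]
    exact mul_lt_of_lt_one_left exp_pos hx

theorem exists_start (htr : Algebra.trdeg K F = 1) {π : F} (hπ : v π = exp (-1))
    (S : AddSubmonoid ℤ) (hS : ∀ n : ℕ, n ∈ weierstrass K v → (n : ℤ) ∈ S)
    (hS' : ∀ n ∈ S, ∃ f ∈ regular K v, v f = exp n) :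
    ∃ b, (poleFil hK htr hπ S hS).IsB b ∧ ∀ s ∈ S, ∀ t ∈ S,
      b s * b t - b (s + t) ∈ (poleFil hK htr hπ S hS).F (s + t - 1) := by
  have hπ0 : π ≠ 0 := fun h => by rw [h, map_zero] at hπ; exact exp_ne_zero hπ.symm
  have hπn : ∀ n : ℤ, v (π ^ n) = exp (-n) := fun n => by
    rw [map_zpow₀, hπ, ← exp_zsmul]; simp
  have : ∀ n : ℤ, ∃ f : regular K v, (n ∉ S → f = 0) ∧ (n ∈ S → v ((f : F) * π ^ n - 1) < 1) := by
    intro n
    by_cases hn : n ∈ S
    · obtain ⟨f, hf, e⟩ := hS' n hn
      have e1 : v (f * π ^ n) = 1 := by rw [map_mul, e, hπn, ← exp_add]; simp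
      obtain ⟨x, hx⟩ := residue hK htr hπ0 (by rw [hπ, ← exp_zero, exp_lt_exp]; omega) e1.le
      have hx0 : x ≠ 0 := by
        rintro rfl
        rw [map_zero, sub_zero, e1] at hx
        exact lt_irrefl _ hx
      refine ⟨x⁻¹ • ⟨f, hf⟩, fun h => absurd hn h, fun _ => ?_⟩
      have : ((x⁻¹ • (⟨f, hf⟩ : regular K v) : regular K v) : F) * π ^ n - 1
          = algebraMap K F x⁻¹ * (f * π ^ n - algebraMap K F x) := by
        rw [SetLike.val_smul, Algebra.smul_def, mul_sub, ← map_mul, inv_mul_cancel₀ hx0, map_one,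
          mul_assoc]
      rw [this, map_mul, hK _ (inv_ne_zero hx0), one_mul]
      exact hx
    · exact ⟨0, fun _ => rfl, fun h => absurd h hn⟩
  choose b hb0 hb using this
  have h1 : ∀ n ∈ S, v ((b n : F) * π ^ n) = 1 := fun n hn => by
    have := v.map_one_add_of_lt (hb n hn)
    rwa [add_sub_cancel] at this
  have cancel : ∀ (n : ℤ) (y : F), v y = v (y * π ^ n) * exp n := fun n y => by
    rw [map_mul, hπn, mul_assoc, ← exp_add]; simp
  have h2 : ∀ n ∈ S, v (b n : F) = exp n := fun n hn => by rw [cancel n, h1 n hn, one_mul]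
  refine ⟨b, ⟨fun n hn => ⟨(h2 n hn).le, fun h => ?_⟩, hb0⟩, fun s hs t ht => le_pred ?_⟩
  · have h : v (b n : F) ≤ exp (n - 1) := h
    rw [h2 n hn, exp_le_exp] at h
    omega
  · rw [cancel (s + t)]
    refine mul_lt_of_lt_one_left exp_pos ?_
    have : ((b s * b t - b (s + t) : regular K v) : F) * π ^ (s + t) =
        ((b s : F) * π ^ s - 1) * ((b t : F) * π ^ t) + ((b t : F) * π ^ t - 1)
          - ((b (s + t) : F) * π ^ (s + t) - 1) := by
      rw [AddSubgroupClass.coe_sub, MulMemClass.coe_mul, zpow_add₀ hπ0]; ring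
    rw [this]
    refine v.map_sub_lt (v.map_add_lt ?_ (hb t ht)) (hb _ (add_mem hs ht))
    rw [map_mul, h1 t ht, mul_one]
    exact hb s hs

end Pool.Agent.Lib.MP_d9f0ae_ag.W3
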