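import Mathlib

/-! The L-shaped Apery set of a semigroup with three generators. -/

namespace Pool.Agent.Lib.MP_d9f0ae_ag.W3

/-- The submonoid of the integers generated by `a`, `b`, `c`. -/
def S3 (a b c : ℤ) : AddSubmonoid ℤ where
  carrier := {n | ∃ i j k : ℕ, n = i * a + j * b + k * c}
  zero_mem' := ⟨0, 0, 0, by simp⟩
  add_mem' := by
    rintro _ _ ⟨i, j, k, rfl⟩ ⟨i', j', k', rfl⟩
    exact ⟨i + i', j + j', k + k', by push_cast; ring⟩

theorem mem_S3 {a b c n : ℤ} : n ∈ S3 a b c ↔ ∃ i j k : ℕ, n = i * a + j * b + k * c := Iff.rfl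

theorem mem_S3' {a b c n : ℤ} (i j k : ℤ) (hi : 0 ≤ i) (hj : 0 ≤ j) (hk : 0 ≤ k)
    (h : n = i * a + j * b + k * c) : n ∈ S3 a b c := by
  lift i to ℕ using hi
  lift j to ℕ using hj
  lift k to ℕ using hk
  exact ⟨i, j, k, h⟩

theorem S3_elim {a b c n : ℤ} (h : n ∈ S3 a b c) :
    ∃ i j k : ℤ, 0 ≤ i ∧ 0 ≤ j ∧ 0 ≤ k ∧ n = i * a + j * b + k * c := by
  obtain ⟨i, j, k, h⟩ := h
  exact ⟨i, j, k, by positivity, by positivity, by positivity, h⟩

/-- The six exponents of the three basic relations, with their minimality properties. -/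
structure Lsh (a b c : ℤ) where
  al : ℤ
  al' : ℤ
  be : ℤ
  be' : ℤ
  ga : ℤ
  ga' : ℤ
  ha : 0 < a
  hb : 0 < b
  hc : 0 < c
  hal : 1 ≤ al
  hal' : 0 ≤ al'
  hbe : 0 ≤ be
  hbe' : 1 ≤ be'
  hga : 1 ≤ ga
  hga' : 0 ≤ ga'
  r2 : (be + be') * b = al * a + ga' * c
  r3 : (ga + ga') * c = al' * a + be * b
  minw : ∀ j : ℤ, 0 < j → j < be + be' → ∀ i k : ℤ, 1 ≤ i → 0 ≤ k → j * b ≠ i * a + k * c
  minh : ∀ k : ℤ, 0 < k → k < ga + ga' → ∀ i j : ℤ, 0 ≤ i → 0 ≤ j → k * c ≠ i * a + j * b

theorem exists_Lsh {a b c : ℤ} (ha : 0 < a) (hb : 0 < b) (hc : 0 < c) : Nonempty (Lsh a b c) := by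
  classical
  have hW : ∃ w : ℕ, 0 < w ∧ ∃ k : ℕ, ∃ i : ℤ, 1 ≤ i ∧ (w : ℤ) * b = i * a + k * c :=
    ⟨a.toNat, by omega, 0, b, hb, by rw [Int.toNat_of_nonneg ha.le]; simp [mul_comm]⟩
  have hH : ∃ h : ℕ, 0 < h ∧ ∃ j : ℕ, ∃ i : ℤ, 0 ≤ i ∧ (h : ℤ) * c = i * a + j * b :=
    ⟨a.toNat, by omega, 0, c, hc.le, by rw [Int.toNat_of_nonneg ha.le]; simp [mul_comm]⟩
  set w := Nat.find hW
  set h := Nat.find hH
  obtain ⟨hw0, hw⟩ : 0 < w ∧ _ := Nat.find_spec hW
  obtain ⟨hh0, hh⟩ : 0 < h ∧ _ := Nat.find_spec hH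
  have minw : ∀ j : ℤ, 0 < j → j < w → ∀ i k : ℤ, 1 ≤ i → 0 ≤ k → j * b ≠ i * a + k * c := by
    intro j hj hjw i k hi hk e
    lift j to ℕ using hj.le
    lift k to ℕ using hk
    exact Nat.find_min hW (m := j) (by exact_mod_cast hjw) ⟨by exact_mod_cast hj, k, i, hi, e⟩
  have minh : ∀ k : ℤ, 0 < k → k < h → ∀ i j : ℤ, 0 ≤ i → 0 ≤ j → k * c ≠ i * a + j * b := by
    intro k hk hkh i j hi hj e
    lift j to ℕ using hj
    lift k to ℕ using hk.le
    exact Nat.find_min hH (m := k) (by exact_mod_cast hkh) ⟨by exact_mod_cast hk, j, i, hi, e⟩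
  set k := Nat.find hw
  set j := Nat.find hh
  obtain ⟨al, hal, e2⟩ : ∃ i : ℤ, 1 ≤ i ∧ (w : ℤ) * b = i * a + k * c := Nat.find_spec hw
  obtain ⟨al', hal', e3⟩ : ∃ i : ℤ, 0 ≤ i ∧ (h : ℤ) * c = i * a + j * b := Nat.find_spec hh
  have hkh : k < h := by
    by_contra hn
    obtain ⟨k', hk'⟩ : ∃ k', k = h + k' := ⟨k - h, by omega⟩
    have e4 : ((w : ℤ) - j) * b = (al + al') * a + k' * c := by
      rw [hk'] at e2; push_cast at e2; linear_combination e2 + e3
    rcases Nat.eq_zero_or_pos j with hj | hj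
    · refine Nat.find_min hw (m := k') (by omega) ⟨al + al', by omega, ?_⟩
      rw [hj] at e4; simpa using e4
    · have hpos : 0 < ((w : ℤ) - j) * b := by rw [e4]; positivity
      have := (mul_pos_iff_of_pos_right hb).1 hpos
      exact minw _ this (by omega) _ _ (by omega) (by positivity) e4
  have hjw : j < w := by
    by_contra hn
    obtain ⟨j', hj'⟩ : ∃ j', j = w + j' := ⟨j - w, by omega⟩
    have e4 : ((h : ℤ) - k) * c = (al + al') * a + j' * b := by
      rw [hj'] at e3; push_cast at e3; linear_combination e2 + e3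
    rcases Nat.eq_zero_or_pos k with hk | hk
    · refine Nat.find_min hh (m := j') (by omega) ⟨al + al', by omega, ?_⟩
      rw [hk] at e4; simpa using e4
    · exact minh _ (by omega) (by omega) _ _ (by omega) (by positivity) e4
  exact ⟨⟨al, al', j, w - j, h - k, k, ha, hb, hc, hal, hal', by positivity, by omega, by omega,
    by positivity, by linear_combination e2, by linear_combination e3,
    fun j' h1 h2 => minw j' h1 (by omega), fun k' h1 h2 => minh k' h1 (by omega)⟩⟩

namespace Lsh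
variable {a b c : ℤ} (L : Lsh a b c)

/-- The pairs of exponents in the L-shape. -/
def In (j k : ℤ) : Prop :=
  0 ≤ j ∧ 0 ≤ k ∧ j < L.be + L.be' ∧ k < L.ga + L.ga' ∧ (j < L.be' ∨ k < L.ga)

theorem r1 : (L.al + L.al') * a = L.be' * b + L.ga * c := by linear_combination - L.r2 - L.r3

theorem apery {j k : ℤ} (h : L.In j k) : j * b + k * c - a ∉ S3 a b c := by
  intro hm
  obtain ⟨i, j', k', hi, hj', hk', e⟩ := S3_elim hm
  obtain ⟨hj, hk, hjw, hkh, hor⟩ := h
  have := L.ha; have := L.hb; have := L.hc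
  have := L.hal; have := L.hal'; have := L.hbe; have := L.hbe'; have := L.hga; have := L.hga'
  by_cases h1 : j' < j <;> by_cases h2 : k' < k
  · rcases hor with hor | hor
    · by_cases h3 : i + 1 ≤ L.al'
      · exact L.minh (L.ga + L.ga' - (k - k')) (by omega) (by omega) (L.al' - (i + 1))
          (L.be + (j - j')) (by omega) (by omega) (by linear_combination L.r3 - e)
      · exact L.minw (L.be + (j - j')) (by omega) (by omega) (i + 1 - L.al')
          (L.ga + L.ga' - (k - k')) (by omega) (by omega) (by linear_combination e - L.r3)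
    · by_cases h3 : i + 1 < L.al
      · exact L.minw (L.be + L.be' - (j - j')) (by omega) (by omega) (L.al - (i + 1))
          (L.ga' + (k - k')) (by omega) (by omega) (by linear_combination L.r2 - e)
      · exact L.minh (L.ga' + (k - k')) (by omega) (by omega) (i + 1 - L.al)
          (L.be + L.be' - (j - j')) (by omega) (by omega) (by linear_combination e - L.r2)
  · exact L.minw (j - j') (by omega) (by omega) (i + 1) (k' - k) (by omega) (by omega)
      (by linear_combination e)
  · exact L.minh (k - k') (by omega) (by omega) (i + 1) (j' - j) (by omega) (by omega)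
      (by linear_combination e)
  · have h3 : 0 ≤ (j' - j) * b := mul_nonneg (by omega) (by omega)
    have h4 : 0 ≤ (k' - k) * c := mul_nonneg (by omega) (by omega)
    have h5 : 0 ≤ i * a := mul_nonneg hi (by omega)
    linarith

theorem apery' {j k i : ℤ} (h : L.In j k) (hi : 1 ≤ i) : j * b + k * c - i * a ∉ S3 a b c := by
  intro hm
  apply L.apery h
  have := (S3 a b c).add_mem hm (mem_S3' (a := a) (b := b) (c := c) (i - 1) 0 0 (by omega) le_rfl
    le_rfl rfl)
  convert this using 1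
  ring

theorem inj {i j k i' j' k' : ℤ} (h : L.In j k) (h' : L.In j' k')
    (e : i * a + j * b + k * c = i' * a + j' * b + k' * c) : i = i' ∧ j = j' ∧ k = k' := by
  have hi : i = i' := by
    rcases lt_trichotomy i i' with h1 | h1 | h1
    · exact absurd (mem_S3' 0 j' k' le_rfl h'.1 h'.2.1 (by linear_combination e))
        (L.apery' (i := i' - i) h (by omega))
    · exact h1
    · exact absurd (mem_S3' 0 j k le_rfl h.1 h.2.1 (by linear_combination -e))
        (L.apery' (i := i - i') h' (by omega))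
  subst hi
  have hb := L.hb; have hc := L.hc
  obtain ⟨hj, hk, -, hkh, -⟩ := h
  obtain ⟨hj', hk', -, hkh', -⟩ := h'
  have hkk : k = k' := by
    rcases lt_trichotomy k k' with h1 | h1 | h1
    · have e2 : (k' - k) * c = 0 * a + (j - j') * b := by linear_combination -e
      have : 0 < (j - j') * b := by
        have : 0 < (k' - k) * c := mul_pos (by omega) hc
        linarith
      have := (mul_pos_iff_of_pos_right hb).1 this
      exact absurd e2 (L.minh _ (by omega) (by omega) _ _ le_rfl (by omega))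
    · exact h1
    · have e2 : (k - k') * c = 0 * a + (j' - j) * b := by linear_combination e
      have : 0 < (j' - j) * b := by
        have : 0 < (k - k') * c := mul_pos (by omega) hc
        linarith
      have := (mul_pos_iff_of_pos_right hb).1 this
      exact absurd e2 (L.minh _ (by omega) (by omega) _ _ le_rfl (by omega))
  subst hkk
  exact ⟨rfl, mul_right_cancel₀ hb.ne' (by linear_combination e), rfl⟩

theorem nf (n : ℕ) : ∀ (m : ℕ) (j k : ℤ), 0 ≤ j → 0 ≤ k → j * b + k * c ≤ n → k ≤ m →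
    ∃ p q : ℤ, 0 ≤ p ∧ 0 ≤ q ∧
      L.In (j - p * (L.be + L.be') + q * L.be) (k + p * L.ga' - q * (L.ga + L.ga')) := by
  have := L.ha; have := L.hb; have := L.hc
  have := L.hal; have := L.hal'; have := L.hbe; have := L.hbe'; have := L.hga; have := L.hga'
  induction n using Nat.strong_induction_on with
  | _ n ihn =>
  intro m
  induction m using Nat.strong_induction_on with
  | _ m ihm =>
  intro j k hj hk hn hm
  have hal : 1 ≤ L.al * a := by nlinarith
  have hal' : 0 ≤ L.al' * a := by positivity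
  by_cases h1 : L.be + L.be' ≤ j
  · have hp : 0 ≤ (j - (L.be + L.be')) * b + (k + L.ga') * c :=
      add_nonneg (mul_nonneg (by omega) (by omega)) (mul_nonneg (by omega) (by omega))
    have he : (j - (L.be + L.be')) * b + (k + L.ga') * c = j * b + k * c - L.al * a := by
      linear_combination - L.r2
    obtain ⟨p, q, hp', hq', h⟩ := ihn (n - 1) (by omega) (k + L.ga').toNat (j - (L.be + L.be'))
      (k + L.ga') (by omega) (by omega) (by omega) (by omega)
    refine ⟨p + 1, q, by omega, hq', ?_⟩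
    convert h using 1 <;> ring
  by_cases h2 : L.ga + L.ga' ≤ k
  · have he : (j + L.be) * b + (k - (L.ga + L.ga')) * c = j * b + k * c - L.al' * a := by
      linear_combination - L.r3
    obtain ⟨p, q, hp', hq', h⟩ := ihm (m - 1) (by omega) (j + L.be) (k - (L.ga + L.ga'))
      (by omega) (by omega) (by omega) (by omega)
    refine ⟨p, q + 1, hp', by omega, ?_⟩
    convert h using 1 <;> ring
  by_cases h3 : L.be' ≤ j ∧ L.ga ≤ k
  · have hp : 0 ≤ (j - L.be') * b + (k - L.ga) * c :=
      add_nonneg (mul_nonneg (by omega) (by omega)) (mul_nonneg (by omega) (by omega))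
    have he : (j - L.be') * b + (k - L.ga) * c = j * b + k * c - L.al * a - L.al' * a := by
      linear_combination L.r1
    obtain ⟨p, q, hp', hq', h⟩ := ihn (n - 1) (by omega) (k - L.ga).toNat (j - L.be')
      (k - L.ga) (by omega) (by omega) (by omega) (by omega)
    refine ⟨p + 1, q + 1, by omega, by omega, ?_⟩
    convert h using 1 <;> ring
  · refine ⟨0, 0, le_rfl, le_rfl, ?_⟩
    simp only [zero_mul, sub_zero, add_zero]
    exact ⟨hj, hk, by omega, by omega, by omega⟩

theorem nf' (j k : ℤ) (hj : 0 ≤ j) (hk : 0 ≤ k) : ∃ p q : ℤ, 0 ≤ p ∧ 0 ≤ q ∧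
    L.In (j - p * (L.be + L.be') + q * L.be) (k + p * L.ga' - q * (L.ga + L.ga')) :=
  L.nf (j * b + k * c).toNat k.toNat j k hj hk (by omega) (by omega)

theorem normal {n : ℤ} (h : n ∈ S3 a b c) :
    ∃ i j k : ℤ, 0 ≤ i ∧ L.In j k ∧ n = i * a + j * b + k * c := by
  obtain ⟨i, j, k, hi, hj, hk, e⟩ := S3_elim h
  obtain ⟨p, q, hp, hq, h⟩ := L.nf' j k hj hk
  have := L.hal; have := L.hal'
  exact ⟨i + p * L.al + q * L.al', _, _, by positivity, h,
    by linear_combination e + p * L.r2 + q * L.r3⟩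

theorem in_zero : L.In 0 0 := by
  have := L.hbe; have := L.hbe'; have := L.hga; have := L.hga'
  exact ⟨le_rfl, le_rfl, by omega, by omega, by omega⟩

/-- The area of the L-shape divides `a ^ 2`. -/
theorem area_dvd : (L.be + L.be') * (L.ga + L.ga') - L.be * L.ga' ∣ a ^ 2 := by
  obtain ⟨p, q, -, -, h⟩ := L.nf' a 0 L.ha.le le_rfl
  obtain ⟨p', q', -, -, h'⟩ := L.nf' 0 a le_rfl L.ha.le
  obtain ⟨-, e1, e2⟩ := L.inj (i := p * L.al + q * L.al') (i' := b) h L.in_zero
    (by linear_combination - p * L.r2 - q * L.r3)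
  obtain ⟨-, e3, e4⟩ := L.inj (i := p' * L.al + q' * L.al') (i' := c) h' L.in_zero
    (by linear_combination - p' * L.r2 - q' * L.r3)
  refine ⟨p * q' - q * p', ?_⟩
  have f1 : a = p * (L.be + L.be') - q * L.be := by linear_combination e1
  have f2 : a = q' * (L.ga + L.ga') - p' * L.ga' := by linear_combination e4
  have f3 : p * L.ga' = q * (L.ga + L.ga') := by linear_combination e2
  have f4 : q' * L.be = p' * (L.be + L.be') := by linear_combination e3
  have f5 : a ^ 2 = (p * (L.be + L.be') - q * L.be) * (q' * (L.ga + L.ga') - p' * L.ga') := by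
    rw [← f1, ← f2]; ring
  have f6 : (p * L.ga' - q * (L.ga + L.ga')) * (q' * L.be - p' * (L.be + L.be')) = 0 := by
    rw [f3, sub_self, zero_mul]
  linear_combination f5 + f6

end Lsh
end Pool.Agent.Lib.MP_d9f0ae_ag.W3
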