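import Pool.Agent.Lib.MP_d9f0ae_ag.Par
import Pool.Agent.Lib.MP_d9f0ae_ag.Lsh

/-! The number of new parameters at each level for a semigroup with three generators. -/

namespace Pool.Agent.Lib.MP_d9f0ae_ag.W3
open Finset

open Classical in
/-- Indicator function of the complement of `S`. -/
noncomputable def chi (S : AddSubmonoid ℤ) (n : ℤ) : ℤ := if n ∈ S then 0 else 1

theorem chi_mem {S : AddSubmonoid ℤ} {n : ℤ} (h : n ∈ S) : chi S n = 0 := if_pos h
theorem chi_not {S : AddSubmonoid ℤ} {n : ℤ} (h : n ∉ S) : chi S n = 1 := if_neg h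
theorem chi_cases (S : AddSubmonoid ℤ) (n : ℤ) :
    (n ∈ S ∧ chi S n = 0) ∨ (n ∉ S ∧ chi S n = 1) := by
  by_cases h : n ∈ S
  · exact Or.inl ⟨h, chi_mem h⟩
  · exact Or.inr ⟨h, chi_not h⟩

theorem chi_01 (S : AddSubmonoid ℤ) (n : ℤ) : 0 ≤ chi S n ∧ chi S n ≤ 1 := by
  rcases chi_cases S n with h | h <;> omega

theorem chi_le {S : AddSubmonoid ℤ} {x y : ℤ} (h : y ∉ S → x ∉ S) : chi S y ≤ chi S x := by
  rcases chi_cases S y with hy | hy
  · have := chi_01 S x; omega
  · rw [hy.2, chi_not (h hy.1)]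

theorem mem_of_chi {S : AddSubmonoid ℤ} {n : ℤ} (h : chi S n = 0) : n ∈ S := by
  rcases chi_cases S n with h' | h'
  · exact h'.1
  · omega

theorem span_two {k K : Type*} [Field k] [Field K] [Algebra k K] (u v : ℤ) (y z : K)
    (h : u * y + v * z = 0) (hne : (u : K) ≠ 0 ∨ (v : K) ≠ 0) :
    ∃ θ : K, y ∈ Submodule.span k ({θ} : Set K) ∧ z ∈ Submodule.span k ({θ} : Set K) := by
  rcases hne with hne | hne
  · refine ⟨z, Submodule.mem_span_singleton.2 ⟨-((v : k) / (u : k)), ?_⟩,
      Submodule.mem_span_singleton_self _⟩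
    rw [Algebra.smul_def, map_neg, map_div₀, map_intCast, map_intCast]
    field_simp
    linear_combination -h
  · refine ⟨y, Submodule.mem_span_singleton_self _,
      Submodule.mem_span_singleton.2 ⟨-((u : k) / (v : k)), ?_⟩⟩
    rw [Algebra.smul_def, map_neg, map_div₀, map_intCast, map_intCast]
    field_simp
    linear_combination -h

theorem S3_nonneg {a b c : ℤ} (ha : 0 < a) (hb : 0 < b) (hc : 0 < c) :
    ∀ n ∈ S3 a b c, 0 ≤ n := by
  rintro _ ⟨i, j, k, rfl⟩
  positivity

theorem not_mem_of_add {a b c x y : ℤ} (i j k : ℤ) (hi : 0 ≤ i) (hj : 0 ≤ j) (hk : 0 ≤ k)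
    (h : y ∉ S3 a b c) (e : y = x + (i * a + j * b + k * c)) : x ∉ S3 a b c := fun hx =>
  h (e ▸ (S3 a b c).add_mem hx (mem_S3' i j k hi hj hk rfl))

/-- None of the three generators lies in the semigroup generated by the other two. -/
structure Mini (a b c : ℤ) : Prop where
  ma : ∀ j k : ℤ, 0 ≤ j → 0 ≤ k → a ≠ j * b + k * c
  mb : ∀ i k : ℤ, 0 ≤ i → 0 ≤ k → b ≠ i * a + k * c
  mc : ∀ i j : ℤ, 0 ≤ i → 0 ≤ j → c ≠ i * a + j * b

/-- Number of generators moved out of the semigroup by the shift `l`. -/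
noncomputable def nA (a b c l : ℤ) : ℤ :=
  chi (S3 a b c) (a + l) + chi (S3 a b c) (b + l) + chi (S3 a b c) (c + l)

namespace Lsh
variable {a b c : ℤ} (L : Lsh a b c)

/-- Degree of the first relation. -/
def d1 : ℤ := (L.al + L.al') * a
/-- Degree of the second relation. -/
def d2 : ℤ := (L.be + L.be') * b
/-- Degree of the third relation. -/
def d3 : ℤ := (L.ga + L.ga') * c

/-- Rank of the relations moved out of the semigroup by the shift `l`. -/
noncomputable def rho (l : ℤ) : ℤ :=
  min 2 (chi (S3 a b c) (L.d1 + l) + chi (S3 a b c) (L.d2 + l) + chi (S3 a b c) (L.d3 + l))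

theorem q1 {l : ℤ} (h : L.d1 + l ∉ S3 a b c) :
    a + l ∉ S3 a b c ∧ b + l ∉ S3 a b c ∧ c + l ∉ S3 a b c := by
  have := L.hal; have := L.hal'; have := L.hbe; have := L.hbe'; have := L.hga; have := L.hga'
  exact ⟨not_mem_of_add (L.al + L.al' - 1) 0 0 (by omega) le_rfl le_rfl h (by unfold d1; ring),
    not_mem_of_add 0 (L.be' - 1) L.ga le_rfl (by omega) (by omega) h
      (by unfold d1; linear_combination L.r1),
    not_mem_of_add 0 L.be' (L.ga - 1) le_rfl (by omega) (by omega) h
      (by unfold d1; linear_combination L.r1)⟩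

theorem q2 {l : ℤ} (h : L.d2 + l ∉ S3 a b c) :
    a + l ∉ S3 a b c ∧ b + l ∉ S3 a b c ∧ (L.ga' = 0 ∨ c + l ∉ S3 a b c) := by
  have := L.hal; have := L.hal'; have := L.hbe; have := L.hbe'; have := L.hga; have := L.hga'
  refine ⟨not_mem_of_add (L.al - 1) 0 L.ga' (by omega) le_rfl (by omega) h
      (by unfold d2; linear_combination L.r2),
    not_mem_of_add 0 (L.be + L.be' - 1) 0 le_rfl (by omega) le_rfl h (by unfold d2; ring), ?_⟩
  by_cases h0 : L.ga' = 0
  · exact Or.inl h0
  · exact Or.inr (not_mem_of_add L.al 0 (L.ga' - 1) (by omega) le_rfl (by omega) h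
      (by unfold d2; linear_combination L.r2))

theorem al'_or_be : L.al' ≠ 0 ∨ L.be ≠ 0 := by
  by_contra h
  push Not at h
  have h3 := L.r3
  rw [h.1, h.2] at h3
  have : 0 < (L.ga + L.ga') * c := mul_pos (by have := L.hga; have := L.hga'; omega) L.hc
  omega

theorem q3 {l : ℤ} (h : L.d3 + l ∉ S3 a b c) :
    c + l ∉ S3 a b c ∧ (L.al' = 0 ∨ a + l ∉ S3 a b c) ∧ (L.be = 0 ∨ b + l ∉ S3 a b c) := by
  have := L.hal; have := L.hal'; have := L.hbe; have := L.hbe'; have := L.hga; have := L.hga'
  refine ⟨not_mem_of_add 0 0 (L.ga + L.ga' - 1) le_rfl le_rfl (by omega) h (by unfold d3; ring),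
    ?_, ?_⟩
  · by_cases h0 : L.al' = 0
    · exact Or.inl h0
    · exact Or.inr (not_mem_of_add (L.al' - 1) L.be 0 (by omega) (by omega) le_rfl h
        (by unfold d3; linear_combination L.r3))
  · by_cases h0 : L.be = 0
    · exact Or.inl h0
    · exact Or.inr (not_mem_of_add L.al' (L.be - 1) 0 (by omega) (by omega) le_rfl h
        (by unfold d3; linear_combination L.r3))

theorem phi_ge (l : ℤ) : (nA a b c l = 0 ∧ L.rho l = 0) ∨ L.rho l + 1 ≤ nA a b c l := by
  have h1 := chi_le fun h => (@q1 _ _ _ L l h).1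
  have h2 := chi_le fun h => (@q1 _ _ _ L l h).2.1
  have h3 := chi_le fun h => (@q1 _ _ _ L l h).2.2
  have h4 := chi_le fun h => (@q2 _ _ _ L l h).1
  have h5 := chi_le fun h => (@q2 _ _ _ L l h).2.1
  have h6 := chi_le fun h => (@q3 _ _ _ L l h).1
  have h7 : chi (S3 a b c) (L.d3 + l) ≤ chi (S3 a b c) (a + l) ∨
      chi (S3 a b c) (L.d3 + l) ≤ chi (S3 a b c) (b + l) := by
    rcases L.al'_or_be with h | h
    · exact Or.inl (chi_le fun h' => (L.q3 h').2.1.resolve_left h)
    · exact Or.inr (chi_le fun h' => (L.q3 h').2.2.resolve_left h)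
  have := chi_01 (S3 a b c) (a + l)
  have := chi_01 (S3 a b c) (b + l)
  have := chi_01 (S3 a b c) (c + l)
  have := chi_01 (S3 a b c) (L.d1 + l)
  have := chi_01 (S3 a b c) (L.d2 + l)
  have := chi_01 (S3 a b c) (L.d3 + l)
  unfold nA rho
  omega

include L in
theorem nA_neg (hm : Mini a b c) {l : ℤ} (hl : l < 0) : nA a b c l ≠ 0 := by
  have ha := L.ha; have hb := L.hb; have hc := L.hc
  intro h
  unfold nA at h
  have := chi_01 (S3 a b c) (a + l)
  have := chi_01 (S3 a b c) (b + l)
  have := chi_01 (S3 a b c) (c + l)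
  have pa : a + l ∈ S3 a b c := mem_of_chi (by omega)
  have pb : b + l ∈ S3 a b c := mem_of_chi (by omega)
  have pc : c + l ∈ S3 a b c := mem_of_chi (by omega)
  have small : ∀ n ∈ S3 a b c, n < a → n < b → n < c → n = 0 := by
    intro n hn h1 h2 h3
    obtain ⟨i, j, k, hi, hj, hk, e⟩ := S3_elim hn
    have e1 : 0 ≤ i * a := by positivity
    have e2 : 0 ≤ j * b := by positivity
    have e3 : 0 ≤ k * c := by positivity
    have : i = 0 := by by_contra h; nlinarith [show 1 ≤ i by omega]
    have : j = 0 := by by_contra h; nlinarith [show 1 ≤ j by omega]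
    have : k = 0 := by by_contra h; nlinarith [show 1 ≤ k by omega]
    simp_all
  by_cases h1 : a ≤ b ∧ a ≤ c
  · have e0 := small _ pa (by omega) (by omega) (by omega)
    obtain ⟨i, j, k, hi, hj, hk, e⟩ := S3_elim pb
    have e1 : 0 ≤ i * a := by positivity
    have e3 : 0 ≤ k * c := by positivity
    have : j = 0 := by by_contra h; nlinarith [show 1 ≤ j by omega]
    exact hm.mb (i + 1) k (by omega) hk (by rw [this] at e; linear_combination e - e0)
  by_cases h2 : b ≤ c
  · have e0 := small _ pb (by omega) (by omega) (by omega)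
    obtain ⟨i, j, k, hi, hj, hk, e⟩ := S3_elim pa
    have e1 : 0 ≤ j * b := by positivity
    have e3 : 0 ≤ k * c := by positivity
    have : i = 0 := by by_contra h; nlinarith [show 1 ≤ i by omega]
    exact hm.ma (j + 1) k (by omega) hk (by rw [this] at e; linear_combination e - e0)
  · have e0 := small _ pc (by omega) (by omega) (by omega)
    obtain ⟨i, j, k, hi, hj, hk, e⟩ := S3_elim pa
    have e1 : 0 ≤ j * b := by positivity
    have e3 : 0 ≤ k * c := by positivity
    have : i = 0 := by by_contra h; nlinarith [show 1 ≤ i by omega]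
    exact hm.ma j (k + 1) hj (by omega) (by rw [this] at e; linear_combination e - e0)

theorem par_core {k K : Type*} [Field k] [Field K] [Algebra k K] (ha : (a : K) ≠ 0)
    (hb : (b : K) ≠ 0) (hc : (c : K) ≠ 0) (l : ℤ) (x y z : K)
    (R1 : L.d1 + l ∉ S3 a b c → (L.al + L.al') * x = L.be' * y + L.ga * z)
    (R2 : L.d2 + l ∉ S3 a b c → (L.be + L.be') * y = L.al * x + L.ga' * z)
    (R3 : L.d3 + l ∉ S3 a b c → (L.ga + L.ga') * z = L.al' * x + L.be * y) :
    ∃ κ : K, ∃ Q : Finset K, Q.card ≤ (nA a b c l - L.rho l - 1).toNat ∧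
      (a + l ∉ S3 a b c → x - κ * a ∈ Submodule.span k (Q : Set K)) ∧
      (b + l ∉ S3 a b c → y - κ * b ∈ Submodule.span k (Q : Set K)) ∧
      (c + l ∉ S3 a b c → z - κ * c ∈ Submodule.span k (Q : Set K)) := by
  classical
  have hΔ : ((L.be : K) + L.be') * (L.ga + L.ga') - L.be * L.ga' ≠ 0 := by
    obtain ⟨t, ht⟩ := L.area_dvd
    intro h
    have := congrArg (Int.cast : ℤ → K) ht
    push_cast at this
    rw [h, zero_mul] at this
    exact pow_ne_zero 2 ha this
  have r2 := congrArg (Int.cast : ℤ → K) L.r2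
  have r3 := congrArg (Int.cast : ℤ → K) L.r3
  push_cast at r2 r3
  have hx : x - x / a * a = 0 := by field_simp; ring
  have hy : y - y / b * b = 0 := by field_simp; ring
  have hz : z - z / c * c = 0 := by field_simp; ring
  set y' := y - x / a * b with hy'
  set z' := z - x / a * c with hz'
  have S1 : L.d1 + l ∉ S3 a b c → L.be' * y' + L.ga * z' = 0 := fun h => by
    linear_combination (-1) * R1 h - x / a * (r2 + r3) + (L.al + L.al') * hx
  have S2 : L.d2 + l ∉ S3 a b c → (L.be + L.be') * y' = L.ga' * z' := fun h => by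
    linear_combination R2 h - x / a * r2 + L.al * hx
  have S3' : L.d3 + l ∉ S3 a b c → (L.ga + L.ga') * z' = L.be * y' := fun h => by
    linear_combination R3 h - x / a * r3 + L.al' * hx
  have both : (L.be + L.be') * y' = L.ga' * z' → (L.ga + L.ga') * z' = L.be * y' →
      ∃ κ : K, ∃ Q : Finset K, Q.card ≤ (nA a b c l - L.rho l - 1).toNat ∧
      (a + l ∉ S3 a b c → x - κ * a ∈ Submodule.span k (Q : Set K)) ∧
      (b + l ∉ S3 a b c → y - κ * b ∈ Submodule.span k (Q : Set K)) ∧
      (c + l ∉ S3 a b c → z - κ * c ∈ Submodule.span k (Q : Set K)) := by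
    intro h2 h3
    have e1 : y' = 0 := (mul_eq_zero.1 (show (((L.be : K) + L.be') * (L.ga + L.ga') -
      L.be * L.ga') * y' = 0 by linear_combination (L.ga + L.ga') * h2 + L.ga' * h3)).resolve_left hΔ
    have e2 : z' = 0 := (mul_eq_zero.1 (show (((L.be : K) + L.be') * (L.ga + L.ga') -
      L.be * L.ga') * z' = 0 by linear_combination (L.be + L.be') * h3 + L.be * h2)).resolve_left hΔ
    exact ⟨x / a, ∅, by simp, fun _ => hx ▸ zero_mem _, fun _ => hy' ▸ e1 ▸ zero_mem _,
      fun _ => hz' ▸ e2 ▸ zero_mem _⟩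
  have one : ∀ u v : ℤ, u * y' + v * z' = 0 → ((u : K) ≠ 0 ∨ (v : K) ≠ 0) →
      1 ≤ nA a b c l - L.rho l - 1 →
      ∃ κ : K, ∃ Q : Finset K, Q.card ≤ (nA a b c l - L.rho l - 1).toNat ∧
      (a + l ∉ S3 a b c → x - κ * a ∈ Submodule.span k (Q : Set K)) ∧
      (b + l ∉ S3 a b c → y - κ * b ∈ Submodule.span k (Q : Set K)) ∧
      (c + l ∉ S3 a b c → z - κ * c ∈ Submodule.span k (Q : Set K)) := by
    intro u v h hne hn
    obtain ⟨θ, h1, h2⟩ := span_two (k := k) u v y' z' h hne
    exact ⟨x / a, {θ}, by rw [card_singleton]; omega, fun _ => hx ▸ zero_mem _,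
      fun _ => by simpa using h1, fun _ => by simpa using h2⟩
  rcases chi_cases (S3 a b c) (L.d1 + l) with ⟨p1, e1⟩ | ⟨p1, e1⟩ <;>
  rcases chi_cases (S3 a b c) (L.d2 + l) with ⟨p2, e2⟩ | ⟨p2, e2⟩ <;>
  rcases chi_cases (S3 a b c) (L.d3 + l) with ⟨p3, e3⟩ | ⟨p3, e3⟩
  · have hr : L.rho l = 0 := by unfold rho; omega
    rcases chi_cases (S3 a b c) (a + l) with ⟨pa, ea⟩ | ⟨pa, ea⟩ <;>
    rcases chi_cases (S3 a b c) (b + l) with ⟨pb, eb⟩ | ⟨pb, eb⟩ <;>
    rcases chi_cases (S3 a b c) (c + l) with ⟨pc, ec⟩ | ⟨pc, ec⟩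
    · exact ⟨0, ∅, by simp, fun h => absurd pa h, fun h => absurd pb h, fun h => absurd pc h⟩
    · exact ⟨z / c, ∅, by simp, fun h => absurd pa h, fun h => absurd pb h,
        fun _ => hz ▸ zero_mem _⟩
    · exact ⟨y / b, ∅, by simp, fun h => absurd pa h, fun _ => hy ▸ zero_mem _,
        fun h => absurd pc h⟩
    · exact ⟨y / b, {z - y / b * c}, by rw [card_singleton]; unfold nA; omega,
        fun h => absurd pa h, fun _ => hy ▸ zero_mem _,
        fun _ => Submodule.subset_span (by simp)⟩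
    · exact ⟨x / a, ∅, by simp, fun _ => hx ▸ zero_mem _, fun h => absurd pb h,
        fun h => absurd pc h⟩
    · exact ⟨x / a, {z'}, by rw [card_singleton]; unfold nA; omega, fun _ => hx ▸ zero_mem _,
        fun h => absurd pb h, fun _ => Submodule.subset_span (by simp [hz'])⟩
    · exact ⟨x / a, {y'}, by rw [card_singleton]; unfold nA; omega, fun _ => hx ▸ zero_mem _,
        fun _ => Submodule.subset_span (by simp [hy']), fun h => absurd pc h⟩
    · exact ⟨x / a, {y', z'}, card_le_two.trans (by unfold nA; omega), fun _ => hx ▸ zero_mem _,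
        fun _ => Submodule.subset_span (by simp [hy']),
        fun _ => Submodule.subset_span (by simp [hz'])⟩
  · obtain ⟨pc, ha', hb'⟩ := L.q3 p3
    have ec := chi_not pc
    have hr : L.rho l = 1 := by unfold rho; omega
    rcases chi_cases (S3 a b c) (a + l) with ⟨pa, ea⟩ | ⟨pa, ea⟩
    · have h0 : L.al' = 0 := ha'.resolve_right (not_not.2 pa)
      have hh : ((L.ga : K) + L.ga') ≠ 0 := by
        intro h
        apply mul_ne_zero hΔ hb
        rw [h0] at r3
        push_cast at r3
        linear_combination (L.ga + L.ga') * r2 + L.ga' * r3 + L.al * a * h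
      have h3 := R3 p3
      rw [h0] at h3 r3
      push_cast at h3 r3
      have : z - y / b * c = 0 := (mul_eq_zero.1 (show ((L.ga : K) + L.ga') * (z - y / b * c) = 0 by
        linear_combination h3 - y / b * r3 + L.be * hy)).resolve_left hh
      exact ⟨y / b, ∅, by simp, fun h => absurd pa h, fun _ => hy ▸ zero_mem _,
        fun _ => this ▸ zero_mem _⟩
    rcases chi_cases (S3 a b c) (b + l) with ⟨pb, eb⟩ | ⟨pb, eb⟩
    · have h0 : L.be = 0 := hb'.resolve_right (not_not.2 pb)
      have h3 := S3' p3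
      rw [h0] at h3 hΔ
      push_cast at h3 hΔ
      have hh : ((L.ga : K) + L.ga') ≠ 0 := fun h => hΔ (by rw [h]; ring)
      have : z' = 0 := (mul_eq_zero.1 (show ((L.ga : K) + L.ga') * z' = 0 by
        linear_combination h3)).resolve_left hh
      exact ⟨x / a, ∅, by simp, fun _ => hx ▸ zero_mem _, fun h => absurd pb h,
        fun _ => hz' ▸ this ▸ zero_mem _⟩
    · refine one (-L.be) (L.ga + L.ga') (by push_cast; linear_combination S3' p3) ?_
        (by unfold nA; omega)
      by_contra h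
      push Not at h
      obtain ⟨h1, h2⟩ := h
      push_cast at h1 h2
      exact hΔ (by linear_combination (L.be + L.be') * h2 + L.ga' * h1)
  · obtain ⟨pa, pb, hc'⟩ := L.q2 p2
    have ea := chi_not pa
    have eb := chi_not pb
    have hr : L.rho l = 1 := by unfold rho; omega
    rcases chi_cases (S3 a b c) (c + l) with ⟨pc, ec⟩ | ⟨pc, ec⟩
    · have h0 : L.ga' = 0 := hc'.resolve_right (not_not.2 pc)
      have h2 := S2 p2
      rw [h0] at h2 hΔ
      push_cast at h2 hΔ
      have hh : ((L.be : K) + L.be') ≠ 0 := fun h => hΔ (by rw [h]; ring)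
      have : y' = 0 := (mul_eq_zero.1 (show ((L.be : K) + L.be') * y' = 0 by
        linear_combination h2)).resolve_left hh
      exact ⟨x / a, ∅, by simp, fun _ => hx ▸ zero_mem _, fun _ => hy' ▸ this ▸ zero_mem _,
        fun h => absurd pc h⟩
    · refine one (L.be + L.be') (-L.ga') (by push_cast; linear_combination S2 p2) ?_
        (by unfold nA; omega)
      by_contra h
      push Not at h
      obtain ⟨h1, h2⟩ := h
      push_cast at h1 h2
      exact hΔ (by linear_combination (L.ga + L.ga') * h1 + L.be * h2)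
  · exact both (S2 p2) (S3' p3)
  · obtain ⟨pa, pb, pc⟩ := L.q1 p1
    have ea := chi_not pa
    have eb := chi_not pb
    have ec := chi_not pc
    have hr : L.rho l = 1 := by unfold rho; omega
    refine one L.be' L.ga (S1 p1) ?_ (by unfold nA; omega)
    by_contra h
    push Not at h
    exact hΔ (by linear_combination (L.ga + L.ga') * h.1 + L.be * h.2)
  · exact both (by linear_combination S1 p1 - S3' p3) (S3' p3)
  · exact both (S2 p2) (by linear_combination S1 p1 - S2 p2)
  · exact both (S2 p2) (S3' p3)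

theorem par {k K : Type*} [Field k] [Field K] [Algebra k K] (ha : (a : K) ≠ 0)
    (hb : (b : K) ≠ 0) (hc : (c : K) ≠ 0) (j : ℕ) (hj : 0 < j) :
    Par k K (S3 a b c) j (nA a b c (-j) - L.rho (-j) - 1).toNat := by
  intro m hm
  have hal := L.hal; have hal' := L.hal'; have hbe := L.hbe; have hbe' := L.hbe'
  have hga := L.hga; have hga' := L.hga'
  have m0 : m 0 = 0 := by
    have := hm 0 (zero_mem _) 0 (zero_mem _) fun h => by
      have := S3_nonneg L.ha L.hb L.hc _ h
      omega
    simpa using this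
  have step : ∀ g ∈ S3 a b c, ∀ t ∈ S3 a b c, ∀ n : ℕ, t + n * g - j ∉ S3 a b c →
      m (t + n * g) = m t + n * m g := by
    intro g hg t ht n
    induction n with
    | zero => simp
    | succ n ih =>
      intro h
      have e : t + ((n + 1 : ℕ) : ℤ) * g = t + n * g + g := by push_cast; ring
      have hn : t + n * g ∈ S3 a b c := add_mem ht (by simpa using nsmul_mem hg n)
      rw [e] at h ⊢
      rw [hm _ hn _ hg h, ih fun h' => h (by
        have := add_mem h' hg; rwa [sub_add_eq_add_sub] at this)]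
      push_cast; ring
  have ma : a ∈ S3 a b c := ⟨1, 0, 0, by simp⟩
  have mb : b ∈ S3 a b c := ⟨0, 1, 0, by simp⟩
  have mc : c ∈ S3 a b c := ⟨0, 0, 1, by simp⟩
  have lin : ∀ i j' k' : ℤ, 0 ≤ i → 0 ≤ j' → 0 ≤ k' → ∀ s, s = i * a + j' * b + k' * c →
      s + -(j : ℤ) ∉ S3 a b c → m s = i * m a + j' * m b + k' * m c := by
    intro i j' k' hi hj' hk' s e h
    lift i to ℕ using hi
    lift j' to ℕ using hj'
    lift k' to ℕ using hk'
    rw [← sub_eq_add_neg, e] at h
    have h2 : (i : ℤ) * a + j' * b - j ∉ S3 a b c :=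
      not_mem_of_add 0 0 k' le_rfl le_rfl (by positivity) h (by ring)
    have h1 : 0 + (i : ℤ) * a - j ∉ S3 a b c :=
      not_mem_of_add 0 j' 0 le_rfl (by positivity) le_rfl h2 (by ring)
    have e1 := step a ma 0 (zero_mem _) i h1
    rw [zero_add, m0, zero_add] at e1
    rw [e, step c mc _ ⟨i, j', 0, by simp⟩ k' h, step b mb _ ⟨i, 0, 0, by simp⟩ j' h2, e1]
    simp
  obtain ⟨κ, Q, hQ, h1, h2, h3⟩ := L.par_core (k := k) ha hb hc (-j) (m a) (m b) (m c)
    (fun h => by
      have e1 := lin (L.al + L.al') 0 0 (by omega) le_rfl le_rfl _ (by unfold d1; ring) h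
      have e2 := lin 0 L.be' L.ga le_rfl (by omega) (by omega) _
        (by unfold d1; linear_combination L.r1) h
      push_cast at e1 e2
      linear_combination e2 - e1)
    (fun h => by
      have e1 := lin 0 (L.be + L.be') 0 le_rfl (by omega) le_rfl _ (by unfold d2; ring) h
      have e2 := lin L.al 0 L.ga' (by omega) le_rfl (by omega) _
        (by unfold d2; linear_combination L.r2) h
      push_cast at e1 e2
      linear_combination e2 - e1)
    (fun h => by
      have e1 := lin 0 0 (L.ga + L.ga') le_rfl le_rfl (by omega) _ (by unfold d3; ring) h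
      have e2 := lin L.al' L.be 0 (by omega) (by omega) le_rfl _
        (by unfold d3; linear_combination L.r3) h
      push_cast at e1 e2
      linear_combination e2 - e1)
  refine ⟨κ, Q, hQ, fun s hs h => ?_⟩
  obtain ⟨i, j', k', e⟩ := hs
  rw [sub_eq_add_neg] at h
  have e1 := lin i j' k' (by positivity) (by positivity) (by positivity) s e h
  have e2 : m s - κ * s = i • (m a - κ * a) + j' • (m b - κ * b) + k' • (m c - κ * c) := by
    rw [e1, e]; simp only [nsmul_eq_mul]; push_cast; ring
  rw [e2]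
  refine add_mem (add_mem ?_ ?_) ?_
  · rcases Nat.eq_zero_or_pos i with h0 | h0
    · rw [h0, zero_smul]; exact zero_mem _
    · exact nsmul_mem (h1 (not_mem_of_add (i - 1) j' k' (by omega) (by positivity) (by positivity)
        h (by rw [e]; ring))) _
  · rcases Nat.eq_zero_or_pos j' with h0 | h0
    · rw [h0, zero_smul]; exact zero_mem _
    · exact nsmul_mem (h2 (not_mem_of_add i (j' - 1) k' (by positivity) (by omega) (by positivity)
        h (by rw [e]; ring))) _
  · rcases Nat.eq_zero_or_pos k' with h0 | h0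
    · rw [h0, zero_smul]; exact zero_mem _
    · exact nsmul_mem (h3 (not_mem_of_add i j' (k' - 1) (by positivity) (by positivity) (by omega)
        h (by rw [e]; ring))) _

end Lsh
end Pool.Agent.Lib.MP_d9f0ae_ag.W3
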