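import Pool.Agent.Lib.MP_d9f0ae_ag.Fil

/-! Counting the parameters needed for the structure constants of a filtered algebra. -/

namespace Pool.Agent.Lib.MP_d9f0ae_ag.W3
open Finset Polynomial

variable (k : Type*) {K A : Type*} [Field k] [Field K] [Algebra k K] [CommRing A] [Algebra K A]
  {S : AddSubmonoid ℤ}

/-- The ring generated by the weighted parameters, the weight being recorded by a variable. -/
noncomputable def WR (P : ℕ → Finset K) : Subalgebra k K[X] :=
  Algebra.adjoin k {p | ∃ w, ∃ θ ∈ P w, p = monomial w θ}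

/-- Weighted homogeneous expressions of weight `j` in the parameters. -/
noncomputable def Wt (P : ℕ → Finset K) (j : ℕ) : Submodule k K :=
  (Subalgebra.toSubmodule (WR k P)).comap ((monomial j : K →ₗ[K] K[X]).restrictScalars k)

variable {k}

theorem mem_Wt {P : ℕ → Finset K} {j : ℕ} {x : K} : x ∈ Wt k P j ↔ monomial j x ∈ WR k P :=
  Iff.rfl

theorem Wt_mul {P : ℕ → Finset K} {i j : ℕ} {x y : K} (hx : x ∈ Wt k P i) (hy : y ∈ Wt k P j) :
    x * y ∈ Wt k P (i + j) := by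
  rw [mem_Wt] at *
  rw [← monomial_mul_monomial]
  exact mul_mem hx hy

theorem Wt_one (P : ℕ → Finset K) : (1 : K) ∈ Wt k P 0 := by
  rw [mem_Wt, monomial_zero_one]
  exact one_mem _

theorem Wt_mono {P P' : ℕ → Finset K} (h : ∀ w, P w ⊆ P' w) (j : ℕ) : Wt k P j ≤ Wt k P' j := by
  intro x hx
  rw [mem_Wt] at *
  refine Algebra.adjoin_mono ?_ hx
  rintro p ⟨w, θ, hθ, rfl⟩
  exact ⟨w, θ, h w hθ, rfl⟩

theorem Wt_span (P : ℕ → Finset K) (j : ℕ) : Submodule.span k (P j : Set K) ≤ Wt k P j := by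
  rw [Submodule.span_le]
  intro θ hθ
  exact mem_Wt.2 (Algebra.subset_adjoin ⟨j, θ, hθ, rfl⟩)

variable (k K) in
/-- Functions additive on the set of `s` in `S` with `s - j` not in `S` depend, modulo the linear
ones, on at most `n` parameters. -/
def Par (S : AddSubmonoid ℤ) (j n : ℕ) : Prop :=
  ∀ m : ℤ → K, (∀ s ∈ S, ∀ t ∈ S, s + t - j ∉ S → m (s + t) = m s + m t) →
    ∃ κ : K, ∃ Q : Finset K, Q.card ≤ n ∧
      ∀ s ∈ S, s - j ∉ S → m s - κ * s ∈ Submodule.span k (Q : Set K)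

variable (k) in
/-- The state of the construction after `j` levels. -/
structure St (Φ : Fil K A S) (n : ℕ → ℕ) (j : ℕ)
    (x : (ℤ → A) × (ℕ → ℤ → ℤ → K) × (ℕ → Finset K)) : Prop where
  isB : Φ.IsB x.1
  lev : Φ.Lev x.1 x.2.1 j
  sup : Fil.Sup S x.2.1 j
  c0 : ∀ s ∈ S, ∀ t ∈ S, x.2.1 0 s t = 1
  wt : ∀ i < j, ∀ s ∈ S, ∀ t ∈ S, x.2.1 i s t ∈ Wt k x.2.2 i
  card : ∀ w, (x.2.2 w).card ≤ n w
  zero : x.2.2 0 = ∅
  top : ∀ w, j ≤ w → x.2.2 w = ∅

theorem St.step (hS : ∀ n ∈ S, 0 ≤ n) {N : ℤ} (h0 : N ∈ S) (h1 : N + 1 ∈ S) {Φ : Fil K A S}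
    {n : ℕ → ℕ} {j' : ℕ} (hpar : Par k K S (j' + 1) (n (j' + 1)))
    {x : (ℤ → A) × (ℕ → ℤ → ℤ → K) × (ℕ → Finset K)} (hx : St k Φ n (j' + 1) x) :
    ∃ y, St k Φ n (j' + 1 + 1) y ∧ (∀ s : ℤ, s - (j' + 1 : ℕ) < 0 → y.1 s = x.1 s) ∧
      ∀ w ≤ j', y.2.2 w = x.2.2 w := by
  classical
  obtain ⟨b, c, P⟩ := x
  obtain ⟨hb, hlev, hsup, hc0, hwt, hcard, hzero, htop⟩ := hx
  simp only at hb hlev hsup hc0 hwt hcard hzero htop
  obtain ⟨d, hd, hlev1⟩ := hlev.extend hb
  set c1 := Function.update c (j' + 1) d with hc1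
  have c1lo : ∀ i < j' + 1, c1 i = c i := fun i hi => Function.update_of_ne hi.ne _ _
  have c1top : c1 (j' + 1) = d := Function.update_self _ _ _
  have hsup1 : Fil.Sup S c1 (j' + 1 + 1) := by
    intro i hi s hs t ht h
    rcases Nat.lt_succ_iff_lt_or_eq.1 hi with hi | rfl
    · rw [c1lo i hi]; exact hsup i hi s hs t ht h
    · rw [c1top]; exact hd s t h
  let mid : ℤ → ℤ → ℤ → K := fun s t u =>
    ∑ i ∈ range j', c (i + 1) s t * c (j' - i) (s + t - (i + 1 : ℕ)) u
  have hmid : ∀ s ∈ S, ∀ t ∈ S, ∀ u ∈ S, mid s t u ∈ Wt k P (j' + 1) := by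
    intro s hs t ht u hu
    refine sum_mem fun i hi => ?_
    have hi' := mem_range.1 hi
    by_cases h : s + t - (i + 1 : ℕ) ∈ S
    · have := Wt_mul (hwt (i + 1) (by omega) s hs t ht) (hwt (j' - i) (by omega) _ h u hu)
      rwa [show i + 1 + (j' - i) = j' + 1 by omega] at this
    · rw [hsup (i + 1) (by omega) s hs t ht h, zero_mul]; exact zero_mem _
  have hexp : ∀ s ∈ S, ∀ t ∈ S, ∀ u ∈ S,
      ∑ i ∈ range (j' + 1 + 1), c1 i s t * c1 (j' + 1 - i) (s + t - i) u
        = d s t + d (s + t) u + mid s t u := by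
    intro s hs t ht u hu
    rw [sum_range_succ, sum_range_succ']
    have e1 : ∑ i ∈ range j', c1 (i + 1) s t * c1 (j' + 1 - (i + 1)) (s + t - (i + 1 : ℕ)) u
        = mid s t u := by
      refine sum_congr rfl fun i hi => ?_
      have hi' := mem_range.1 hi
      rw [c1lo (i + 1) (by omega), c1lo _ (by omega), Nat.add_sub_add_right]
    have e2 : c1 (j' + 1) s t * c1 (j' + 1 - (j' + 1)) (s + t - (j' + 1 : ℕ)) u = d s t := by
      rw [Nat.sub_self, c1top, c1lo 0 (by omega)]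
      by_cases h : s + t - (j' + 1 : ℕ) ∈ S
      · rw [hc0 _ h u hu, mul_one]
      · rw [hd s t h, zero_mul]
    rw [e1, e2, c1lo 0 (by omega), hc0 s hs t ht, Nat.sub_zero, c1top]
    simp only [Nat.cast_zero, sub_zero]
    ring
  obtain ⟨r, hr⟩ := LinearMap.exists_extend (p := Wt k P (j' + 1)) LinearMap.id
  have hr' : ∀ y ∈ Wt k P (j' + 1), (r y : K) = y := fun y hy => by
    have := LinearMap.congr_fun hr ⟨y, hy⟩
    simpa using congrArg Subtype.val this
  obtain ⟨m, hm⟩ := cocycle_split S hS (fun s t => d s t - r (d s t))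
    (fun s hs t ht => by
      have := hlev1.symm hb hsup1 hs ht (Nat.lt_succ_self _)
      rw [c1top] at this
      simp only [this])
    (fun s hs t ht u hu => by
      have e := hlev1.assoc hb hsup1 hs ht hu
      rw [hexp s hs t ht u hu, hexp t ht u hu s hs] at e
      have e2 := congrArg (fun y => (r y : K)) e
      simp only [map_add, Submodule.coe_add, hr' _ (hmid s hs t ht u hu),
        hr' _ (hmid t ht u hu s hs)] at e2
      linear_combination e - e2) N h0 h1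
  obtain ⟨κ, Q, hQ, hκ⟩ := hpar m (fun s hs t ht h => by
    have := hm s hs t ht
    simp only [hd s t h, map_zero, Submodule.coe_zero, sub_zero] at this
    linear_combination this)
  let μ : ℤ → K := fun s => if s ∈ S ∧ s - (j' + 1 : ℕ) ∈ S then m s - κ * s else 0
  have hμ1 : ∀ s, s ∉ S → μ s = 0 := fun s h => if_neg fun h' => h h'.1
  have hμ2 : ∀ s : ℤ, s - (j' + 1 : ℕ) ∉ S → μ s = 0 := fun s h => if_neg fun h' => h h'.2
  let P' := Function.update P (j' + 1) Q
  have hP' : ∀ w, P w ⊆ P' w := by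
    intro w
    by_cases h : w = j' + 1
    · rw [h, htop _ le_rfl]; exact empty_subset _
    · simp only [P', Function.update_of_ne h]; exact Subset.refl _
  have hν : ∀ s ∈ S, m s - κ * s - μ s ∈ Wt k P' (j' + 1) := by
    intro s hs
    by_cases h : s - (j' + 1 : ℕ) ∈ S
    · have : μ s = m s - κ * s := if_pos ⟨hs, h⟩
      rw [this, sub_self]; exact zero_mem _
    · rw [hμ2 s h, sub_zero]
      apply Wt_span P' (j' + 1)
      simp only [P', Function.update_self]
      exact hκ s hs h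
  refine ⟨⟨fun s => b s - μ s • b (s - (j' + 1 : ℕ)),
    Function.update c1 (j' + 1) fun s t => c1 (j' + 1) s t - (μ s + μ t - μ (s + t)), P'⟩,
    ⟨hb.change (by omega) μ hμ1, hlev1.change hb (by omega)
      (by rw [c1lo 0 (by omega)]; exact hc0) μ hμ2, ?_, ?_, ?_, ?_, ?_, ?_⟩, ?_, ?_⟩
  · intro i hi s hs t ht h
    rcases Nat.lt_succ_iff_lt_or_eq.1 hi with hi' | rfl
    · simp only [Function.update_of_ne hi'.ne]
      exact hsup1 i hi s hs t ht h
    · simp only [Function.update_self, c1top]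
      rw [hd s t h, hμ2 _ h, hμ2 s fun h' => h (by
        have := S.add_mem h' ht; rwa [sub_add_eq_add_sub] at this),
        hμ2 t fun h' => h (by have := S.add_mem hs h'; rwa [← add_sub_assoc] at this)]
      ring
  · intro s hs t ht
    simp only [Function.update_of_ne (show 0 ≠ j' + 1 by omega), c1lo 0 (by omega)]
    exact hc0 s hs t ht
  · intro i hi s hs t ht
    rcases Nat.lt_succ_iff_lt_or_eq.1 hi with hi' | rfl
    · simp only [Function.update_of_ne hi'.ne, c1lo i hi']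
      exact Wt_mono hP' i (hwt i hi' s hs t ht)
    · simp only [Function.update_self, c1top]
      have e1 := Wt_mono hP' _ (r (d s t)).2
      have e2 := sub_mem (add_mem (add_mem e1 (hν s hs)) (hν t ht)) (hν _ (S.add_mem hs ht))
      convert e2 using 1
      have := hm s hs t ht
      push_cast
      linear_combination this
  · intro w
    by_cases h : w = j' + 1
    · simp only [P', h, Function.update_self]; exact hQ
    · simp only [P', Function.update_of_ne h]; exact hcard w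
  · simp only [P', Function.update_of_ne (show 0 ≠ j' + 1 by omega)]; exact hzero
  · intro w hw
    simp only [P', Function.update_of_ne (show w ≠ j' + 1 by omega)]
    exact htop w (by omega)
  · intro s hs
    simp only
    rw [hμ2 s fun h => absurd (hS _ h) (by omega), zero_smul, sub_zero]
  · intro w hw
    simp only [P', Function.update_of_ne (show w ≠ j' + 1 by omega)]

theorem exists_limit (hS : ∀ n ∈ S, 0 ≤ n) {N : ℤ} (h0 : N ∈ S) (h1 : N + 1 ∈ S) (Φ : Fil K A S)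
    (n : ℕ → ℕ) (hpar : ∀ j, Par k K S (j + 1) (n (j + 1))) {b : ℤ → A} (hb : Φ.IsB b)
    (hb1 : ∀ s ∈ S, ∀ t ∈ S, b s * b t - b (s + t) ∈ Φ.F (s + t - 1)) :
    ∃ (B : ℤ → A) (P : ℕ → Finset K), Φ.IsB B ∧ (∀ w, (P w).card ≤ n w) ∧ P 0 = ∅ ∧
      ∀ s ∈ S, ∀ t ∈ S, ∃ (J : ℕ) (c : ℕ → K), (∀ i < J, c i ∈ Wt k P i) ∧
        B s * B t = ∑ i ∈ range J, c i • B (s + t - i) := by
  have base : St k Φ n (0 + 1) ⟨b, fun _ _ _ => 1, fun _ => ∅⟩ := by
    refine ⟨hb, ?_, ?_, fun _ _ _ _ => rfl, ?_, fun _ => by simp, rfl, fun _ _ => rfl⟩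
    · intro s hs t ht
      simpa using hb1 s hs t ht
    · intro i hi s hs t ht h
      obtain rfl : i = 0 := by omega
      exact absurd (by simpa using S.add_mem hs ht) h
    · intro i hi s _ t _
      obtain rfl : i = 0 := by omega
      exact Wt_one _
  let seq : ∀ j : ℕ, {x // St k Φ n (j + 1) x} := fun j =>
    Nat.rec ⟨_, base⟩ (fun j ih => ⟨(St.step hS h0 h1 (hpar j) ih.2).choose,
      (St.step hS h0 h1 (hpar j) ih.2).choose_spec.1⟩) j
  have hseq : ∀ j, (∀ s : ℤ, s - (j + 1 : ℕ) < 0 → (seq (j + 1)).1.1 s = (seq j).1.1 s) ∧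
      ∀ w ≤ j, (seq (j + 1)).1.2.2 w = (seq j).1.2.2 w := fun j =>
    (St.step hS h0 h1 (hpar j) (seq j).2).choose_spec.2
  have hB : ∀ s : ℤ, ∀ J, s.toNat ≤ J → (seq J).1.1 s = (seq s.toNat).1.1 s := by
    intro s J hJ
    induction J, hJ using Nat.le_induction with
    | base => rfl
    | succ J hJ ih => rw [(hseq J).1 s (by push_cast; omega), ih]
  have hP : ∀ w J, w ≤ J → (seq J).1.2.2 w = (seq w).1.2.2 w := by
    intro w J hJ
    induction J, hJ using Nat.le_induction with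
    | base => rfl
    | succ J hJ ih => rw [(hseq J).2 w hJ, ih]
  refine ⟨fun s => (seq s.toNat).1.1 s, fun w => (seq w).1.2.2 w,
    ⟨fun s hs => (seq _).2.isB.1 s hs, fun s hs => (seq _).2.isB.2 s hs⟩,
    fun w => (seq w).2.card w, (seq 0).2.zero, fun s hs t ht => ?_⟩
  have hs0 := hS s hs
  have ht0 := hS t ht
  set J := (s + t).toNat with hJ
  refine ⟨J + 1, fun i => (seq J).1.2.1 i s t, fun i hi => ?_, ?_⟩
  · refine Wt_mono (fun w => ?_) i ((seq J).2.wt i hi s hs t ht)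
    by_cases hw : w ≤ J
    · rw [hP w J hw]
    · rw [(seq J).2.top w (by omega)]; exact empty_subset _
  · have := Φ.bot _ (by push_cast; omega) _ ((seq J).2.lev s hs t ht)
    rw [sub_eq_zero, hB s J (by omega), hB t J (by omega)] at this
    rw [this]
    exact sum_congr rfl fun i _ => by rw [hB _ J (by omega)]

theorem eval_mem {P : ℕ → Finset K} (u : K) (R : Subalgebra k K)
    (hR : ∀ w, ∀ θ ∈ P w, θ * u ^ w ∈ R) {j : ℕ} {x : K} (hx : x ∈ Wt k P j) :
    x * u ^ j ∈ R := by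
  have : WR k P ≤ R.comap ((aeval u : K[X] →ₐ[K] K).restrictScalars k) := by
    apply Algebra.adjoin_le
    rintro p ⟨w, θ, hθ, rfl⟩
    simpa using hR w θ hθ
  simpa using this (mem_Wt.1 hx)

theorem exists_scaled [IsAlgClosed K] (hS : ∀ n ∈ S, 0 ≤ n) {N : ℤ} (h0 : N ∈ S)
    (h1 : N + 1 ∈ S) (Φ : Fil K A S) (n : ℕ → ℕ) (hpar : ∀ j, Par k K S (j + 1) (n (j + 1)))
    (M : ℕ) (hM : ∀ w, M < w → n w = 0) {b : ℤ → A} (hb : Φ.IsB b)
    (hb1 : ∀ s ∈ S, ∀ t ∈ S, b s * b t - b (s + t) ∈ Φ.F (s + t - 1)) :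
    ∃ (B : ℤ → A) (T : Finset K), Φ.IsB B ∧ T.card ≤ ∑ w ∈ Icc 1 M, n w - 1 ∧
      ∀ s ∈ S, ∀ t ∈ S, ∃ (J : ℕ) (c : ℕ → K),
        (∀ i < J, c i ∈ Algebra.adjoin k (T : Set K)) ∧
        B s * B t = ∑ i ∈ range J, c i • B (s + t - i) := by
  classical
  obtain ⟨B, P, hB, hcard, hP0, hmul⟩ := exists_limit hS h0 h1 Φ n hpar hb hb1
  have hw : ∀ w, ∀ θ ∈ P w, w ∈ Icc 1 M := by
    intro w θ hθ
    rw [mem_Icc]
    constructor
    · by_contra h
      obtain rfl : w = 0 := by omega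
      rw [hP0] at hθ; simp at hθ
    · by_contra h
      have h2 := hcard w
      rw [hM w (by omega)] at h2
      have := card_pos.2 ⟨θ, hθ⟩
      omega
  obtain ⟨u, hu, T, hT, hTm⟩ : ∃ u : K, u ≠ 0 ∧ ∃ T : Finset K,
      T.card ≤ ∑ w ∈ Icc 1 M, n w - 1 ∧
      ∀ w, ∀ θ ∈ P w, θ * u ^ w ∈ Algebra.adjoin k (T : Set K) := by
    by_cases h : ∃ w, ∃ θ ∈ P w, θ ≠ 0
    · obtain ⟨w0, θ0, hθ0, hne⟩ := h
      have hw0 := hw w0 θ0 hθ0
      obtain ⟨u, hu⟩ := IsAlgClosed.exists_pow_nat_eq θ0⁻¹ (n := w0) (by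
        have := (mem_Icc.1 hw0).1; omega)
      have hu0 : u ≠ 0 := by
        rintro rfl
        rw [zero_pow (by have := (mem_Icc.1 hw0).1; omega)] at hu
        exact inv_ne_zero hne hu.symm
      let U : Finset K := (Icc 1 M).biUnion fun w => (P w).image fun θ => θ * u ^ w
      have hU : ∀ w, ∀ θ ∈ P w, θ * u ^ w ∈ U := fun w θ hθ =>
        mem_biUnion.2 ⟨w, hw w θ hθ, mem_image_of_mem _ hθ⟩
      have h1U : (1 : K) ∈ U := by
        have := hU w0 θ0 hθ0
        rwa [hu, mul_inv_cancel₀ hne] at this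
      refine ⟨u, hu0, U.erase 1, ?_, fun w θ hθ => ?_⟩
      · rw [card_erase_of_mem h1U]
        apply Nat.sub_le_sub_right
        exact card_biUnion_le.trans (sum_le_sum fun w _ => card_image_le.trans (hcard w))
      · by_cases h : θ * u ^ w = 1
        · rw [h]; exact one_mem _
        · exact Algebra.subset_adjoin (mem_coe.2 (mem_erase.2 ⟨h, hU w θ hθ⟩))
    · push Not at h
      refine ⟨1, one_ne_zero, ∅, by simp, fun w θ hθ => ?_⟩
      rw [h w θ hθ, zero_mul]; exact zero_mem _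
  refine ⟨fun s => u ^ s • B s, T, ⟨fun s hs => ⟨Submodule.smul_mem _ _ (hB.mem s), fun h => ?_⟩,
    fun s hs => by simp [hB.2 s hs]⟩, hT, fun s hs t ht => ?_⟩
  · exact zpow_ne_zero s hu (hB.coef hs h)
  · obtain ⟨J, c, hc, e⟩ := hmul s hs t ht
    refine ⟨J, fun i => c i * u ^ i, fun i hi => eval_mem u _ hTm (hc i hi), ?_⟩
    simp only [smul_mul_smul_comm, e, smul_sum, smul_smul]
    refine sum_congr rfl fun i _ => ?_
    congr 1
    rw [zpow_sub₀ hu, zpow_add₀ hu, zpow_natCast]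
    field_simp

end Pool.Agent.Lib.MP_d9f0ae_ag.W3
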